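import Mathlib

/-!
Averages of Koopman operators of a random measure preserving map: either they contract some power
uniformly, or there are finite measures which are almost invariant under almost all the maps.
-/

set_option autoImplicit false

open MeasureTheory Filter

namespace Q69.SM

variable {Ω X : Type*} [MeasurableSpace Ω] [MeasurableSpace X]

/-- the average of `φ ∘ f ω` -/
noncomputable def avg (P : Measure Ω) (f : Ω → X → X) (φ : X → ℝ) (x : X) : ℝ :=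
  ∫ ω, φ (f ω x) ∂P

/-- measurable and square integrable -/
def L2 (μ : Measure X) (φ : X → ℝ) : Prop := Measurable φ ∧ Integrable (fun x => φ x ^ 2) μ

variable {P : Measure Ω} [IsProbabilityMeasure P] {μ : Measure X} [SigmaFinite μ]
  {f : Ω → X → X}

theorem mp_phi (hf : Measurable (Function.uncurry f)) (hmp : ∀ ω, MeasurePreserving (f ω) μ μ) :
    MeasurePreserving (fun z : Ω × X => f z.1 z.2) (P.prod μ) μ := by
  have h1 : MeasurePreserving (fun z : Ω × X => (z.1, f z.1 z.2)) (P.prod μ) (P.prod μ) :=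
    (MeasurePreserving.id P).skew_product (g := fun ω x => f ω x) hf
      (Eventually.of_forall fun ω => (hmp ω).map_eq)
  exact measurePreserving_snd.comp h1

theorem L2.comp {φ : X → ℝ} (h : L2 μ φ) {g : X → X} (hg : MeasurePreserving g μ μ) :
    L2 μ (fun x => φ (g x)) := by
  refine ⟨h.1.comp hg.measurable, ?_⟩
  have := hg.integrable_comp (f := g) (g := fun x => φ x ^ 2) h.2.aestronglyMeasurable
  exact this.2 h.2

theorem integral_sq_comp {φ : X → ℝ} (h : L2 μ φ) {g : X → X} (hg : MeasurePreserving g μ μ) :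
    ∫ x, φ (g x) ^ 2 ∂μ = ∫ x, φ x ^ 2 ∂μ := by
  conv_rhs => rw [← hg.map_eq]
  rw [integral_map hg.measurable.aemeasurable]
  rw [hg.map_eq]
  exact h.2.aestronglyMeasurable

theorem L2.sub {φ ψ : X → ℝ} (h : L2 μ φ) (h' : L2 μ ψ) : L2 μ (fun x => φ x - ψ x) := by
  refine ⟨h.1.sub h'.1, ?_⟩
  refine ((h.2.const_mul 2).add (h'.2.const_mul 2)).mono'
    ((h.1.sub h'.1).pow_const 2).aestronglyMeasurable (Eventually.of_forall fun x => ?_)
  simp only [Pi.add_apply]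
  rw [Real.norm_of_nonneg (sq_nonneg _)]
  nlinarith [sq_nonneg (φ x + ψ x)]

theorem var_one (g : Ω → ℝ) (hg : Measurable g) (h2 : Integrable (fun ω => g ω ^ 2) P) :
    Integrable g P ∧ ∫ ω, (g ω - ∫ ω', g ω' ∂P) ^ 2 ∂P = (∫ ω, g ω ^ 2 ∂P) -
      (∫ ω, g ω ∂P) ^ 2 := by
  have h1 : Integrable g P := by
    refine ((integrable_const (1:ℝ)).add h2).mono' hg.aestronglyMeasurable
      (Eventually.of_forall fun x => ?_)
    simp only [Pi.add_apply, Real.norm_eq_abs]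
    nlinarith [sq_nonneg (|g x| - 1), sq_abs (g x), abs_nonneg (g x)]
  refine ⟨h1, ?_⟩
  obtain ⟨c, hc⟩ : ∃ c, c = ∫ ω, g ω ∂P := ⟨_, rfl⟩
  rw [← hc]
  have h3 : ∀ ω, (g ω - c) ^ 2 = g ω ^ 2 - (2 * c) * g ω + c ^ 2 := fun ω => by ring
  simp only [h3]
  have i1 : Integrable (fun ω => (2 * c) * g ω) P := h1.const_mul _
  have i2 : Integrable (fun ω => g ω ^ 2 - (2 * c) * g ω) P := h2.sub i1
  rw [integral_add i2 (integrable_const _), integral_sub h2 i1, integral_const_mul, ← hc]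
  simp
  ring

section
variable (hf : Measurable (Function.uncurry f)) (hmp : ∀ ω, MeasurePreserving (f ω) μ μ)
include hf hmp

theorem int_sq {φ : X → ℝ} (h : L2 μ φ) :
    Integrable (fun z : Ω × X => φ (f z.1 z.2) ^ 2) (P.prod μ) ∧
      ∫ z : Ω × X, φ (f z.1 z.2) ^ 2 ∂(P.prod μ) = ∫ x, φ x ^ 2 ∂μ := by
  have hp := mp_phi (P := P) hf hmp
  constructor
  · exact (hp.integrable_comp (g := fun x => φ x ^ 2) h.2.aestronglyMeasurable).2 h.2
  · conv_rhs => rw [← hp.map_eq]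
    rw [integral_map hp.measurable.aemeasurable]
    rw [hp.map_eq]
    exact h.2.aestronglyMeasurable

theorem avg_meas {φ : X → ℝ} (h : Measurable φ) : Measurable (avg P f φ) := by
  have h1 : StronglyMeasurable (fun z : X × Ω => φ (f z.2 z.1)) := by
    apply Measurable.stronglyMeasurable
    exact h.comp (hf.comp measurable_swap)
  exact (h1.integral_prod_right (ν := P)).measurable

theorem main_var {φ : X → ℝ} (h : L2 μ φ) :
    L2 μ (avg P f φ) ∧
    Integrable (fun z : Ω × X => (φ (f z.1 z.2) - avg P f φ z.2) ^ 2) (P.prod μ) ∧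
    ∫ z : Ω × X, (φ (f z.1 z.2) - avg P f φ z.2) ^ 2 ∂(P.prod μ) =
      (∫ x, φ x ^ 2 ∂μ) - ∫ x, avg P f φ x ^ 2 ∂μ := by
  obtain ⟨h1, h2⟩ := int_sq (P := P) hf hmp h
  have h1s : Integrable (fun z : X × Ω => φ (f z.2 z.1) ^ 2) (μ.prod P) := h1.swap
  have hae : ∀ᵐ x ∂μ, Integrable (fun ω => φ (f ω x) ^ 2) P := h1s.prod_right_ae
  have hmx : ∀ x, Measurable (fun ω => φ (f ω x)) := fun x =>
    h.1.comp (hf.comp (measurable_id.prodMk measurable_const))
  have hI := h1s.integral_prod_left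
  have hmeas := avg_meas (P := P) hf hmp h.1
  have hle : ∀ᵐ x ∂μ, avg P f φ x ^ 2 ≤ ∫ ω, φ (f ω x) ^ 2 ∂P := by
    filter_upwards [hae] with x hx
    have h3 := (var_one (P := P) _ (hmx x) hx).2
    have h4 : 0 ≤ ∫ ω, (φ (f ω x) - ∫ ω', φ (f ω' x) ∂P) ^ 2 ∂P :=
      integral_nonneg fun ω => sq_nonneg _
    unfold avg
    linarith
  have hL2 : L2 μ (avg P f φ) := by
    refine ⟨hmeas, hI.mono' (hmeas.pow_const 2).aestronglyMeasurable ?_⟩
    filter_upwards [hle] with x hx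
    rwa [Real.norm_of_nonneg (sq_nonneg _)]
  refine ⟨hL2, ?_⟩
  have hA : Integrable (fun z : Ω × X => avg P f φ z.2 ^ 2) (P.prod μ) := hL2.2.comp_snd P
  have hmeas2 : Measurable (fun z : Ω × X => (φ (f z.1 z.2) - avg P f φ z.2) ^ 2) :=
    ((h.1.comp hf).sub (hmeas.comp measurable_snd)).pow_const 2
  have hint : Integrable (fun z : Ω × X => (φ (f z.1 z.2) - avg P f φ z.2) ^ 2) (P.prod μ) := by
    refine ((h1.const_mul 2).add (hA.const_mul 2)).mono' hmeas2.aestronglyMeasurable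
      (Eventually.of_forall fun z => ?_)
    simp only [Pi.add_apply]
    rw [Real.norm_of_nonneg (sq_nonneg _)]
    nlinarith [sq_nonneg (φ (f z.1 z.2) + avg P f φ z.2)]
  refine ⟨hint, ?_⟩
  have hints : Integrable (fun z : X × Ω => (φ (f z.2 z.1) - avg P f φ z.1) ^ 2) (μ.prod P) :=
    hint.swap
  have e1 : ∫ z : Ω × X, (φ (f z.1 z.2) - avg P f φ z.2) ^ 2 ∂(P.prod μ) =
      ∫ x, ∫ ω, (φ (f ω x) - avg P f φ x) ^ 2 ∂P ∂μ := by
    rw [← integral_prod _ hints, ← integral_prod_swap]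
    rfl
  have e2 : ∫ x, φ x ^ 2 ∂μ = ∫ x, ∫ ω, φ (f ω x) ^ 2 ∂P ∂μ := by
    rw [← h2, ← integral_prod _ h1s, ← integral_prod_swap]
    rfl
  rw [e1, e2, ← integral_sub hI hL2.2]
  refine integral_congr_ae ?_
  filter_upwards [hae] with x hx
  exact (var_one (P := P) _ (hmx x) hx).2

theorem iter_L2 {φ : X → ℝ} (h : L2 μ φ) (n : ℕ) : L2 μ ((avg P f)^[n] φ) := by
  induction n with
  | zero => exact h
  | succ n ih => rw [Function.iterate_succ_apply']; exact (main_var (P := P) hf hmp ih).1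

theorem err_int {φ : X → ℝ} (h : L2 μ φ) (ω : Ω) :
    Integrable (fun x => (φ (f ω x) - avg P f φ x) ^ 2) μ :=
  (L2.sub (h.comp (hmp ω)) (main_var (P := P) hf hmp h).1).2

theorem err_meas {φ : X → ℝ} (h : L2 μ φ) :
    Measurable (fun ω => ∫ x, (φ (f ω x) - avg P f φ x) ^ 2 ∂μ) := by
  have h1 : StronglyMeasurable (fun z : Ω × X => (φ (f z.1 z.2) - avg P f φ z.2) ^ 2) :=
    (((h.1.comp hf).sub ((avg_meas (P := P) hf hmp h.1).comp measurable_snd)).pow_const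
      2).stronglyMeasurable
  exact (h1.integral_prod_right (ν := μ)).measurable

theorem err_avg {φ : X → ℝ} (h : L2 μ φ) :
    Integrable (fun ω => ∫ x, (φ (f ω x) - avg P f φ x) ^ 2 ∂μ) P ∧
    ∫ ω, ∫ x, (φ (f ω x) - avg P f φ x) ^ 2 ∂μ ∂P =
      (∫ x, φ x ^ 2 ∂μ) - ∫ x, avg P f φ x ^ 2 ∂μ := by
  obtain ⟨-, h2, h3⟩ := main_var (P := P) hf hmp h
  refine ⟨h2.integral_prod_left, ?_⟩
  rw [← h3, integral_prod _ h2]

/-- comparison of the measures with densities `φ²` and `(avg φ)²` -/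
theorem shift_le {φ : X → ℝ} (h : L2 μ φ) (ω : Ω) {A : Set X} (hA : MeasurableSet A) {s : ℝ}
    (hs : 0 < s) (h1 : ∫ x, φ x ^ 2 ∂μ ≤ 1) (h2 : ∫ x, avg P f φ x ^ 2 ∂μ ≤ 1) :
    |(∫ x in (f ω) ⁻¹' A, avg P f φ x ^ 2 ∂μ) - ∫ x in A, φ x ^ 2 ∂μ| ≤
      (∫ x, (φ (f ω x) - avg P f φ x) ^ 2 ∂μ) / (2 * s) + 2 * s := by
  have hL := (main_var (P := P) hf hmp h).1
  have hc := h.comp (hmp ω)
  have e1 : ∫ x in A, φ x ^ 2 ∂μ = ∫ x in (f ω) ⁻¹' A, φ (f ω x) ^ 2 ∂μ := by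
    have h5 := (hmp ω).restrict_preimage hA
    conv_lhs => rw [← h5.map_eq]
    rw [integral_map h5.measurable.aemeasurable]
    rw [h5.map_eq]
    exact h.2.aestronglyMeasurable.restrict
  rw [e1, ← integral_sub hL.2.integrableOn hc.2.integrableOn]
  have hpt : ∀ x, |avg P f φ x ^ 2 - φ (f ω x) ^ 2| ≤
      (φ (f ω x) - avg P f φ x) ^ 2 / (2 * s) + s * (φ (f ω x) ^ 2 + avg P f φ x ^ 2) := by
    intro x
    obtain ⟨a, ha⟩ : ∃ a, a = avg P f φ x := ⟨_, rfl⟩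
    obtain ⟨b, hb⟩ : ∃ b, b = φ (f ω x) := ⟨_, rfl⟩
    rw [← ha, ← hb]
    have e : |a ^ 2 - b ^ 2| = |b - a| * |a + b| := by
      rw [← abs_mul, ← abs_neg]
      congr 1; ring
    rw [e]
    have e2 : (b - a) ^ 2 / (2 * s) = |b - a| ^ 2 / (2 * s) := by rw [sq_abs]
    rw [e2]
    have e3 : (a + b) ^ 2 ≤ 2 * (b ^ 2 + a ^ 2) := by nlinarith [sq_nonneg (a - b)]
    have e4 : |a + b| ^ 2 ≤ 2 * (b ^ 2 + a ^ 2) := by rw [sq_abs]; exact e3
    have e5 : |b - a| * |a + b| ≤ |b - a| ^ 2 / (2 * s) + s * |a + b| ^ 2 / 2 := by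
      have : 0 ≤ (|b - a| / s - |a + b|) ^ 2 * (s / 2) := by positivity
      have e6 : (|b - a| / s - |a + b|) ^ 2 * (s / 2) =
          |b - a| ^ 2 / (2 * s) + s * |a + b| ^ 2 / 2 - |b - a| * |a + b| := by
        field_simp
        ring
      linarith
    nlinarith
  have hint1 : Integrable (fun x => (φ (f ω x) - avg P f φ x) ^ 2 / (2 * s)) μ :=
    (err_int (P := P) hf hmp h ω).div_const _
  have hint2 : Integrable (fun x => s * (φ (f ω x) ^ 2 + avg P f φ x ^ 2)) μ :=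
    (hc.2.add hL.2).const_mul s
  calc |∫ x in (f ω) ⁻¹' A, avg P f φ x ^ 2 - φ (f ω x) ^ 2 ∂μ|
      ≤ ∫ x in (f ω) ⁻¹' A, |avg P f φ x ^ 2 - φ (f ω x) ^ 2| ∂μ := abs_integral_le_integral_abs
    _ ≤ ∫ x, |avg P f φ x ^ 2 - φ (f ω x) ^ 2| ∂μ :=
        setIntegral_le_integral (hL.2.sub hc.2).abs (Eventually.of_forall fun x => abs_nonneg _)
    _ ≤ ∫ x, ((φ (f ω x) - avg P f φ x) ^ 2 / (2 * s) +
          s * (φ (f ω x) ^ 2 + avg P f φ x ^ 2)) ∂μ :=
        integral_mono (hL.2.sub hc.2).abs (hint1.add hint2) hpt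
    _ = (∫ x, (φ (f ω x) - avg P f φ x) ^ 2 ∂μ) / (2 * s) +
          s * ((∫ x, φ x ^ 2 ∂μ) + ∫ x, avg P f φ x ^ 2 ∂μ) := by
        rw [integral_add hint1 hint2, integral_div, integral_const_mul,
          integral_add hc.2 hL.2, integral_sq_comp h (hmp ω)]
    _ ≤ _ := by nlinarith

end

end Q69.SM
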