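import Pool.Agent.Q69.SM.Avg

/-!
The dichotomy: some power of the average contracts uniformly, or there are finite measures which
are almost invariant under almost all the maps.
-/

set_option autoImplicit false

open MeasureTheory Filter

namespace Q69.SM

variable {Ω X : Type*} [MeasurableSpace Ω] [MeasurableSpace X]
variable {P : Measure Ω} [IsProbabilityMeasure P] {μ : Measure X} [SigmaFinite μ]
  {f : Ω → X → X}

theorem avg_smul (c : ℝ) (φ : X → ℝ) :
    avg P f (fun x => c * φ x) = fun x => c * avg P f φ x := by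
  funext x
  unfold avg
  exact integral_const_mul c _

theorem iter_smul (c : ℝ) (φ : X → ℝ) (n : ℕ) :
    (avg P f)^[n] (fun x => c * φ x) = fun x => c * (avg P f)^[n] φ x := by
  induction n with
  | zero => rfl
  | succ n ih => rw [Function.iterate_succ_apply', Function.iterate_succ_apply', ih, avg_smul]

theorem L2.smul {φ : X → ℝ} (h : L2 μ φ) (c : ℝ) : L2 μ (fun x => c * φ x) := by
  refine ⟨h.1.const_mul c, ?_⟩
  have : (fun x => (c * φ x) ^ 2) = fun x => c ^ 2 * φ x ^ 2 := by funext x; ring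
  rw [this]
  exact h.2.const_mul _

/-- the measure with density `ρ` -/
noncomputable def dens (μ : Measure X) (ρ : X → ℝ) : Measure X :=
  μ.withDensity (fun x => ENNReal.ofReal (ρ x))

theorem dens_real {ρ : X → ℝ} (h0 : ∀ x, 0 ≤ ρ x) (hi : Integrable ρ μ) {A : Set X}
    (hA : MeasurableSet A) : (dens μ ρ).real A = ∫ x in A, ρ x ∂μ := by
  unfold dens
  rw [Measure.real, withDensity_apply _ hA, integral_eq_lintegral_of_nonneg_ae
    (Eventually.of_forall h0) hi.integrableOn.aestronglyMeasurable]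

theorem dens_finite {ρ : X → ℝ} (hi : Integrable ρ μ) : IsFiniteMeasure (dens μ ρ) := by
  refine ⟨?_⟩
  unfold dens
  rw [withDensity_apply _ MeasurableSet.univ, Measure.restrict_univ]
  exact hi.lintegral_lt_top

theorem almost_invariant (hf : Measurable (Function.uncurry f))
    (hmp : ∀ ω, MeasurePreserving (f ω) μ μ)
    (hno : ∀ N : ℕ, ∀ η : ℝ, 0 < η → ∃ φ : X → ℝ, L2 μ φ ∧ 0 < ∫ x, φ x ^ 2 ∂μ ∧
      (1 - η) * ∫ x, φ x ^ 2 ∂μ < ∫ x, (avg P f)^[N] φ x ^ 2 ∂μ) :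
    ∀ κ : ℝ, 0 < κ → ∃ m : Measure X, IsFiniteMeasure m ∧ m ≪ μ ∧ m.real Set.univ ≤ 1 ∧
      1 - κ ≤ m.real Set.univ ∧ ∃ D : Set Ω, MeasurableSet D ∧ 1 - κ ≤ P.real D ∧
        ∀ ω ∈ D, ∀ A : Set X, MeasurableSet A → |m.real ((f ω) ⁻¹' A) - m.real A| ≤ κ := by
  intro κ hκ
  obtain ⟨N, hN⟩ := exists_nat_ge (4 / κ + 1)
  have hN1 : (1 : ℝ) ≤ N := by
    have : 0 < 4 / κ := by positivity
    linarith
  have hN0 : (0 : ℝ) < N := by linarith
  have hNκ : 1 / (N : ℝ) ≤ κ / 4 := by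
    rw [div_le_iff₀ hN0]
    have h1 : 4 / κ ≤ N := by linarith
    rw [div_le_iff₀ hκ] at h1
    linarith
  obtain ⟨δ, hδ⟩ : ∃ δ : ℝ, δ = min κ (κ ^ 2 / 16) := ⟨_, rfl⟩
  have hδ0 : 0 < δ := by rw [hδ]; positivity
  have hδ1 : δ ≤ κ := by rw [hδ]; exact min_le_left _ _
  have hδ2 : δ ≤ κ ^ 2 / 16 := by rw [hδ]; exact min_le_right _ _
  obtain ⟨φ0, hφ0, hpos, hbig⟩ := hno N (min (δ ^ 2) κ) (by positivity)
  obtain ⟨I, hI⟩ : ∃ I, I = ∫ x, φ0 x ^ 2 ∂μ := ⟨_, rfl⟩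
  rw [← hI] at hpos hbig
  obtain ⟨c, hc⟩ : ∃ c : ℝ, c = 1 / √I := ⟨_, rfl⟩
  have hc2 : c ^ 2 * I = 1 := by
    rw [hc, div_pow, one_pow, Real.sq_sqrt hpos.le]
    field_simp
  obtain ⟨φ, hφd⟩ : ∃ φ : X → ℝ, φ = fun x => c * φ0 x := ⟨_, rfl⟩
  have hφ : L2 μ φ := by rw [hφd]; exact hφ0.smul c
  obtain ⟨ψ, hψ⟩ : ∃ ψ : ℕ → X → ℝ, ψ = fun k => (avg P f)^[k] φ := ⟨_, rfl⟩
  have hψs : ∀ k, ψ (k + 1) = avg P f (ψ k) := fun k => by
    rw [hψ]
    exact Function.iterate_succ_apply' _ _ _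
  have hψL : ∀ k, L2 μ (ψ k) := fun k => by rw [hψ]; exact iter_L2 hf hmp hφ k
  obtain ⟨a, ha⟩ : ∃ a : ℕ → ℝ, a = fun k => ∫ x, ψ k x ^ 2 ∂μ := ⟨_, rfl⟩
  have ha0 : a 0 = 1 := by
    rw [ha, hψ]
    simp only [Function.iterate_zero, id]
    rw [hφd]
    have : (fun x => (c * φ0 x) ^ 2) = fun x => c ^ 2 * φ0 x ^ 2 := by funext x; ring
    rw [this, integral_const_mul, ← hI, hc2]
  have haN : 1 - min (δ ^ 2) κ < a N := by
    rw [ha, hψ]
    simp only
    rw [hφd, iter_smul]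
    have : (fun x => (c * (avg P f)^[N] φ0 x) ^ 2) =
      fun x => c ^ 2 * ((avg P f)^[N] φ0 x) ^ 2 := by funext x; ring
    rw [this, integral_const_mul]
    have hcpos : 0 < c ^ 2 := by
      rw [hc]; positivity
    have := mul_lt_mul_of_pos_left hbig hcpos
    calc 1 - min (δ ^ 2) κ = c ^ 2 * ((1 - min (δ ^ 2) κ) * I) := by
          rw [show c ^ 2 * ((1 - min (δ ^ 2) κ) * I) = (1 - min (δ ^ 2) κ) * (c ^ 2 * I) by ring,
            hc2, mul_one]
      _ < _ := this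
  obtain ⟨e, he⟩ : ∃ e : ℕ → Ω → ℝ,
    e = fun k ω => ∫ x, (ψ k (f ω x) - ψ (k + 1) x) ^ 2 ∂μ := ⟨_, rfl⟩
  have he0 : ∀ k ω, 0 ≤ e k ω := fun k ω => by
    rw [he]; exact integral_nonneg fun x => sq_nonneg _
  have heI : ∀ k, Integrable (e k) P ∧ ∫ ω, e k ω ∂P = a k - a (k + 1) := fun k => by
    rw [he, ha]
    simp only [hψs]
    exact err_avg hf hmp (hψL k)
  have hanti : ∀ k, a (k + 1) ≤ a k := fun k => by
    have h1 := (heI k).2
    have h2 : 0 ≤ ∫ ω, e k ω ∂P := integral_nonneg fun ω => he0 k ω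
    linarith
  have hanti' : Antitone a := antitone_nat_of_succ_le hanti
  have hale : ∀ k, a k ≤ 1 := fun k => ha0 ▸ hanti' (Nat.zero_le k)
  have hage : ∀ k ≤ N, 1 - κ ≤ a k := fun k hk => by
    have := hanti' hk
    have h2 := min_le_right (δ ^ 2) κ
    linarith
  obtain ⟨S, hS⟩ : ∃ S : Ω → ℝ, S = fun ω => ∑ k ∈ Finset.range N, e k ω := ⟨_, rfl⟩
  have hSm : Measurable S := by
    rw [hS]
    refine Finset.measurable_sum _ fun k _ => ?_
    rw [he]
    simp only [hψs]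
    exact err_meas hf hmp (hψL k)
  have hS0 : ∀ ω, 0 ≤ S ω := fun ω => by rw [hS]; exact Finset.sum_nonneg fun k _ => he0 k ω
  have hSI : Integrable S P := by
    rw [hS]; exact integrable_finsetSum _ fun k _ => (heI k).1
  have hSi : ∫ ω, S ω ∂P ≤ δ ^ 2 := by
    rw [hS, integral_finsetSum _ fun k _ => (heI k).1]
    simp only [fun k => (heI k).2]
    rw [Finset.sum_range_sub']
    have h2 := min_le_left (δ ^ 2) κ
    linarith
  obtain ⟨D, hD⟩ : ∃ D : Set Ω, D = {ω | S ω ≤ δ} := ⟨_, rfl⟩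
  have hDm : MeasurableSet D := by rw [hD]; exact measurableSet_le hSm measurable_const
  have hPD : 1 - κ ≤ P.real D := by
    have h1 := mul_meas_ge_le_integral_of_nonneg (μ := P) (f := S)
      (Eventually.of_forall hS0) hSI δ
    have h2 : P.real {ω | δ ≤ S ω} ≤ δ := by
      have : δ * P.real {ω | δ ≤ S ω} ≤ δ * δ := by
        calc _ ≤ _ := h1
          _ ≤ δ ^ 2 := hSi
          _ = δ * δ := by ring
      exact le_of_mul_le_mul_left this hδ0
    have h3 : P.real Dᶜ ≤ P.real {ω | δ ≤ S ω} := by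
      refine measureReal_mono ?_ (measure_ne_top _ _)
      intro ω hω
      rw [hD] at hω
      simp only [Set.mem_compl_iff, Set.mem_setOf_eq, not_le] at hω
      exact hω.le
    have h4 := probReal_compl_eq_one_sub (μ := P) hDm
    linarith
  obtain ⟨ρ, hρ⟩ : ∃ ρ : X → ℝ,
    ρ = fun x => (1 / (N : ℝ)) * ∑ k ∈ Finset.range N, ψ (k + 1) x ^ 2 := ⟨_, rfl⟩
  have hρ0 : ∀ x, 0 ≤ ρ x := fun x => by
    rw [hρ]
    exact mul_nonneg (by positivity) (Finset.sum_nonneg fun k _ => sq_nonneg _)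
  have hρI : Integrable ρ μ := by
    rw [hρ]
    exact (integrable_finsetSum _ fun k _ => (hψL (k + 1)).2).const_mul _
  have hreal : ∀ A : Set X, MeasurableSet A → (dens μ ρ).real A =
      (1 / (N : ℝ)) * ∑ k ∈ Finset.range N, ∫ x in A, ψ (k + 1) x ^ 2 ∂μ := by
    intro A hA
    rw [dens_real hρ0 hρI hA, hρ, integral_const_mul,
      integral_finsetSum _ fun k _ => (hψL (k + 1)).2.integrableOn]
  have huniv : (dens μ ρ).real Set.univ = (1 / (N : ℝ)) * ∑ k ∈ Finset.range N, a (k + 1) := by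
    rw [hreal _ MeasurableSet.univ, ha]
    simp only [Measure.restrict_univ]
  refine ⟨dens μ ρ, dens_finite hρI, ?_, ?_, ?_, D, hDm, hPD, ?_⟩
  · exact withDensity_absolutelyContinuous _ _
  · rw [huniv]
    have : ∑ k ∈ Finset.range N, a (k + 1) ≤ ∑ _k ∈ Finset.range N, (1:ℝ) :=
      Finset.sum_le_sum fun k _ => hale _
    rw [Finset.sum_const, Finset.card_range, nsmul_eq_mul, mul_one] at this
    rw [one_div, inv_mul_le_iff₀ hN0]
    linarith
  · rw [huniv]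
    have : ∑ _k ∈ Finset.range N, (1 - κ) ≤ ∑ k ∈ Finset.range N, a (k + 1) :=
      Finset.sum_le_sum fun k hk => hage _ (Finset.mem_range.1 hk)
    rw [Finset.sum_const, Finset.card_range, nsmul_eq_mul] at this
    rw [one_div, ← div_eq_inv_mul, le_div_iff₀ hN0]
    linarith
  · intro ω hω A hA
    have hpre : MeasurableSet ((f ω) ⁻¹' A) := (hmp ω).measurable hA
    rw [hreal _ hA, hreal _ hpre]
    have hs : (0 : ℝ) < κ / 8 := by positivity
    have hk : ∀ k, |(∫ x in (f ω) ⁻¹' A, ψ (k + 1) x ^ 2 ∂μ) - ∫ x in A, ψ k x ^ 2 ∂μ| ≤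
        e k ω / (2 * (κ / 8)) + 2 * (κ / 8) := by
      intro k
      have h1 : ∫ x, ψ k x ^ 2 ∂μ ≤ 1 := by have := hale k; rwa [ha] at this
      have h2 : ∫ x, avg P f (ψ k) x ^ 2 ∂μ ≤ 1 := by
        have := hale (k + 1)
        rw [ha] at this
        simp only [hψs] at this
        exact this
      have h3 := shift_le (P := P) hf hmp (hψL k) ω hA hs h1 h2
      rw [he]
      simp only [hψs]
      exact h3
    have htel : ∑ k ∈ Finset.range N, ∫ x in A, ψ (k + 1) x ^ 2 ∂μ =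
        (∑ k ∈ Finset.range N, ∫ x in A, ψ k x ^ 2 ∂μ) + (∫ x in A, ψ N x ^ 2 ∂μ) -
          ∫ x in A, ψ 0 x ^ 2 ∂μ := by
      have := Finset.sum_range_sub (fun k => ∫ x in A, ψ k x ^ 2 ∂μ) N
      rw [Finset.sum_sub_distrib] at this
      linarith
    have hN' : 0 ≤ ∫ x in A, ψ N x ^ 2 ∂μ := integral_nonneg fun x => sq_nonneg _
    have h0' : 0 ≤ ∫ x in A, ψ 0 x ^ 2 ∂μ := integral_nonneg fun x => sq_nonneg _
    have hle1 : ∀ k, ∫ x in A, ψ k x ^ 2 ∂μ ≤ 1 := fun k => by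
      refine le_trans (setIntegral_le_integral (hψL k).2
        (Eventually.of_forall fun x => sq_nonneg _)) ?_
      have := hale k; rwa [ha] at this
    have hsum : |(∑ k ∈ Finset.range N, ∫ x in (f ω) ⁻¹' A, ψ (k + 1) x ^ 2 ∂μ) -
        ∑ k ∈ Finset.range N, ∫ x in A, ψ k x ^ 2 ∂μ| ≤ δ * (4 / κ) + N * (κ / 4) := by
      rw [← Finset.sum_sub_distrib]
      refine (Finset.abs_sum_le_sum_abs _ _).trans ?_
      refine (Finset.sum_le_sum fun k _ => hk k).trans ?_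
      rw [Finset.sum_add_distrib, Finset.sum_const, Finset.card_range, nsmul_eq_mul,
        ← Finset.sum_div]
      have h5 : S ω ≤ δ := by rw [hD] at hω; exact hω
      rw [hS] at h5
      have h6 : (∑ k ∈ Finset.range N, e k ω) / (2 * (κ / 8)) ≤ δ / (2 * (κ / 8)) :=
        div_le_div_of_nonneg_right h5 (by positivity)
      have h7 : δ / (2 * (κ / 8)) = δ * (4 / κ) := by field_simp; ring
      rw [h7] at h6
      have h8 : (N : ℝ) * (2 * (κ / 8)) = N * (κ / 4) := by ring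
      linarith
    have h9 : δ * (4 / κ) ≤ κ / 4 := by
      rw [mul_div_assoc', div_le_iff₀ hκ]
      nlinarith
    rw [← mul_sub, abs_mul, abs_of_pos (by positivity : (0:ℝ) < 1 / N)]
    have h10 : |(∑ k ∈ Finset.range N, ∫ x in (f ω) ⁻¹' A, ψ (k + 1) x ^ 2 ∂μ) -
        ∑ k ∈ Finset.range N, ∫ x in A, ψ (k + 1) x ^ 2 ∂μ| ≤ κ / 4 + N * (κ / 4) + 1 := by
      rw [htel]
      rw [abs_le] at hsum ⊢
      have := hle1 N
      have := hle1 0
      constructor <;> linarith [hsum.1, hsum.2]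
    calc (1 / (N : ℝ)) * _ ≤ (1 / (N : ℝ)) * (κ / 4 + N * (κ / 4) + 1) :=
          mul_le_mul_of_nonneg_left h10 (by positivity)
      _ = (1 / (N:ℝ)) * (κ / 4) + κ / 4 + 1 / N := by field_simp
      _ ≤ κ / 4 + κ / 4 + κ / 4 := by
          have : (1 / (N:ℝ)) * (κ / 4) ≤ 1 * (κ / 4) :=
            mul_le_mul_of_nonneg_right (by rw [div_le_one hN0]; exact hN1) (by positivity)
          linarith
      _ ≤ κ := by linarith

end Q69.SM
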