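import Pool.Agent.Q69.SM.Std

/-!
Two different standard maps have no common invariant set.
-/

set_option autoImplicit false

open MeasureTheory Filter Real

namespace Q69.SM

/-- vertical shear on the torus -/
noncomputable def V0 (s : ℝ) (p : Tor) : Tor := (p.1, ((-(s * sn p.1) : ℝ) : UnitAddCircle) + p.2)

theorem S_V0 (a b : ℝ) (p : Tor) : S a (V0 (b - a) p) = S b p := by
  obtain ⟨x, y⟩ := p
  simp only [S, V0]
  refine Prod.ext ?_ rfl
  simp only
  have e : b * sn x = a * sn x + (b - a) * sn x := by ring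
  rw [e, AddCircle.coe_add, AddCircle.coe_neg]
  abel

theorem continuous_V0 (s : ℝ) : Continuous (V0 s) := by
  unfold V0
  have h1 : Continuous (fun z : Tor => ((-(s * sn z.1) : ℝ) : UnitAddCircle)) :=
    continuous_coe.comp ((continuous_const.mul (continuous_sn.comp (by fun_prop))).neg)
  fun_prop

theorem mp_V0 (s : ℝ) : MeasurePreserving (V0 s) volume volume := by
  rw [Measure.volume_eq_prod]
  refine (MeasurePreserving.id volume).skew_product
    (g := fun (x : UnitAddCircle) (y : UnitAddCircle) =>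
      ((-(s * sn x) : ℝ) : UnitAddCircle) + y) ?_
    (Eventually.of_forall fun x => ?_)
  · exact measurable_snd.comp (continuous_V0 s).measurable
  · exact (measurePreserving_add_left volume _).map_eq

theorem finite_level (r : ℝ) : {x : UnitAddCircle | sn x = r}.Finite := by
  have hinj : Function.Injective (fun x : UnitAddCircle => (AddCircle.toCircle x : ℂ)) :=
    Subtype.val_injective.comp (AddCircle.injective_toCircle one_ne_zero)
  have hfin : ({(⟨√(1 - r ^ 2), r⟩ : ℂ), (⟨-√(1 - r ^ 2), r⟩ : ℂ)} : Set ℂ).Finite := by simp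
  refine (hfin.preimage hinj.injOn).subset fun x hx => ?_
  simp only [Set.mem_setOf_eq] at hx
  have h1 := cs_sq_add x
  rw [hx] at h1
  have h2 : cs x ^ 2 = 1 - r ^ 2 := by linarith
  simp only [Set.mem_preimage, Set.mem_insert_iff, Set.mem_singleton_iff]
  rcases le_total 0 (cs x) with h | h
  · left
    refine Complex.ext ?_ hx
    change cs x = _
    rw [← h2, Real.sqrt_sq h]
  · right
    refine Complex.ext ?_ hx
    change cs x = _
    simp only
    rw [← h2, ← neg_sq, Real.sqrt_sq (by linarith), neg_neg]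

theorem null_level (r : ℝ) : (volume : Measure UnitAddCircle) {x | sn x = r} = 0 := by
  haveI : NullSingletonClass (volume : Measure UnitAddCircle) := by
    refine ⟨fun x => le_antisymm ?_ (zero_le)⟩
    refine (measure_mono (t := Metric.closedBall x 0) (by simp)).trans ?_
    rw [AddCircle.volume_closedBall]
    simp
  exact (finite_level r).measure_zero _

theorem ae_irr {s : ℝ} (hs : s ≠ 0) :
    ∀ᵐ x : UnitAddCircle, addOrderOf ((-(s * sn x) : ℝ) : UnitAddCircle) = 0 := by
  have h1 : ∀ᵐ x : UnitAddCircle, ∀ q : ℚ, sn x ≠ (q : ℝ) / s := by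
    rw [ae_all_iff]
    intro q
    have h := null_level ((q : ℝ) / s)
    have h' := compl_mem_ae_iff.2 h
    filter_upwards [h'] with x hx
    exact hx
  filter_upwards [h1] with x hx
  by_contra hne
  obtain ⟨n, hn⟩ : ∃ n : ℕ, n = addOrderOf ((-(s * sn x) : ℝ) : UnitAddCircle) := ⟨_, rfl⟩
  have hn0 : n ≠ 0 := by rw [hn]; exact hne
  have h2 : n • ((-(s * sn x) : ℝ) : UnitAddCircle) = 0 := by rw [hn]; exact addOrderOf_nsmul_eq_zero _
  rw [← AddCircle.coe_nsmul, AddCircle.coe_eq_zero_iff] at h2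
  obtain ⟨m, hm⟩ := h2
  have hn0' : (n : ℝ) ≠ 0 := Nat.cast_ne_zero.2 hn0
  refine hx (-(m : ℚ) / n) ?_
  push_cast
  simp only [zsmul_eq_mul, mul_one, nsmul_eq_mul] at hm
  field_simp
  linarith

/-- A set invariant (mod 0) under two different standard maps is null or conull. -/
theorem pair_ergodic {a b : ℝ} (hab : a ≠ b) {A : Set Tor} (hA : MeasurableSet A)
    (h1 : S a ⁻¹' A =ᵐ[volume] A) (h2 : S b ⁻¹' A =ᵐ[volume] A) :
    (volume : Measure Tor) A = 0 ∨ (volume : Measure Tor) Aᶜ = 0 := by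
  have hs : b - a ≠ 0 := sub_ne_zero.2 hab.symm
  -- invariance under the shear
  have hV : V0 (b - a) ⁻¹' A =ᵐ[volume] A := by
    have h3 : V0 (b - a) ⁻¹' (S a ⁻¹' A) =ᵐ[volume] V0 (b - a) ⁻¹' A :=
      (mp_V0 (b - a)).quasiMeasurePreserving.preimage_ae_eq h1
    have h4 : V0 (b - a) ⁻¹' (S a ⁻¹' A) = S b ⁻¹' A := by
      ext p
      simp only [Set.mem_preimage, S_V0]
    rw [h4] at h3
    exact h3.symm.trans h2
  have hfib : ∀ᵐ x : UnitAddCircle, ∀ᵐ y : UnitAddCircle,
      ((V0 (b - a) (x, y) ∈ A) = ((x, y) ∈ A)) := Measure.ae_ae_of_ae_prod hV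
  have hdich : ∀ᵐ x : UnitAddCircle, (volume : Measure UnitAddCircle) ((fun y => (x, y)) ⁻¹' A) = 0 ∨
      (volume : Measure UnitAddCircle) ((fun y => (x, y)) ⁻¹' A)ᶜ = 0 := by
    filter_upwards [hfib, ae_irr hs] with x hx hirr
    have herg : Ergodic (((-((b - a) * sn x) : ℝ) : UnitAddCircle) + ·)
      (volume : Measure UnitAddCircle) := AddCircle.ergodic_add_left.2 hirr
    have hm : MeasurableSet ((fun y : UnitAddCircle => (x, y)) ⁻¹' A) :=
      measurable_prodMk_left hA
    have hinv : (((-((b - a) * sn x) : ℝ) : UnitAddCircle) + ·) ⁻¹'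
        ((fun y : UnitAddCircle => (x, y)) ⁻¹' A) =ᵐ[volume]
        ((fun y : UnitAddCircle => (x, y)) ⁻¹' A) := by
      filter_upwards [hx] with y hy
      exact hy
    rcases herg.quasiErgodic.ae_empty_or_univ₀ hm.nullMeasurableSet hinv with h | h
    · left; exact ae_eq_empty.1 h
    · right; exact ae_eq_univ.1 h
  -- the base set
  obtain ⟨B, hB⟩ : ∃ B : Set UnitAddCircle,
    B = {x | (volume : Measure UnitAddCircle) ((fun y => (x, y)) ⁻¹' A) ≠ 0} := ⟨_, rfl⟩
  have hBm : MeasurableSet B := by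
    rw [hB]
    have h := measurable_measure_prodMk_left (ν := (volume : Measure UnitAddCircle)) hA
    exact (h (measurableSet_singleton 0)).compl
  have hAB : ∀ᵐ x : UnitAddCircle, ∀ᵐ y : UnitAddCircle, ((x, y) ∈ A ↔ x ∈ B) := by
    filter_upwards [hdich] with x hx
    by_cases hxB : x ∈ B
    · have h3 : (volume : Measure UnitAddCircle) ((fun y => (x, y)) ⁻¹' A)ᶜ = 0 := by
        rcases hx with h | h
        · rw [hB] at hxB; exact absurd h hxB
        · exact h
      have h4 := mem_ae_iff.2 h3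
      filter_upwards [h4] with y hy
      exact ⟨fun _ => hxB, fun _ => hy⟩
    · have h3 : (volume : Measure UnitAddCircle) ((fun y => (x, y)) ⁻¹' A) = 0 := by
        rw [hB] at hxB
        by_contra h
        exact hxB h
      have h4 := compl_mem_ae_iff.2 h3
      filter_upwards [h4] with y hy
      exact ⟨fun h => absurd h hy, fun h => absurd h hxB⟩
  have hABp : ∀ᵐ z : Tor, (z ∈ A ↔ z.1 ∈ B) := by
    have hm : MeasurableSet {z : Tor | z ∈ A ↔ z.1 ∈ B} := by
      have e : {z : Tor | z ∈ A ↔ z.1 ∈ B} =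
          (A ∩ Prod.fst ⁻¹' B) ∪ (Aᶜ ∩ (Prod.fst ⁻¹' B)ᶜ) := by
        ext z
        simp only [Set.mem_setOf_eq, Set.mem_union, Set.mem_inter_iff, Set.mem_preimage,
          Set.mem_compl_iff]
        tauto
      rw [e]
      exact (hA.inter (measurable_fst hBm)).union (hA.compl.inter (measurable_fst hBm).compl)
    exact (Measure.ae_prod_mem_iff_ae_ae_mem (μ := (volume : Measure UnitAddCircle))
      (ν := (volume : Measure UnitAddCircle)) hm).2 hAB
  -- use invariance under `S a`
  have h5 : ∀ᵐ z : Tor, (S a z ∈ A ↔ (S a z).1 ∈ B) :=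
    (mp_S a).quasiMeasurePreserving.ae hABp
  have h6 : ∀ᵐ z : Tor, ((S a z).1 ∈ B ↔ z.1 ∈ B) := by
    filter_upwards [h5, hABp, h1] with z hz1 hz2 hz3
    have h : (S a z ∈ A) = (z ∈ A) := hz3
    rw [← hz1, ← hz2, h]
  have h7 : ∀ᵐ x : UnitAddCircle, ∀ᵐ y : UnitAddCircle, ((S a (x, y)).1 ∈ B ↔ x ∈ B) :=
    Measure.ae_ae_of_ae_prod h6
  by_cases hB0 : (volume : Measure UnitAddCircle) B = 0
  · left
    have h8 : ∀ᵐ z : Tor, z.1 ∉ B :=
      (Measure.quasiMeasurePreserving_fst (μ := (volume : Measure UnitAddCircle))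
        (ν := (volume : Measure UnitAddCircle))).ae (compl_mem_ae_iff.2 hB0)
    have h9 : ∀ᵐ z : Tor, z ∉ A := by
      filter_upwards [h8, hABp] with z hz1 hz2 hz3
      exact hz1 (hz2.1 hz3)
    have h10 := ae_iff.1 h9
    simpa using h10
  · right
    obtain ⟨x, hxB, hx⟩ : ∃ x, x ∈ B ∧ ∀ᵐ y : UnitAddCircle, ((S a (x, y)).1 ∈ B ↔ x ∈ B) := by
      by_contra hno
      apply hB0
      have h8 := ae_iff.1 h7
      refine measure_mono_null (fun x hx => ?_) h8
      intro hall
      exact hno ⟨x, hx, hall⟩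
    have h8 : ∀ᵐ y : UnitAddCircle, (x + x + ((a * sn x : ℝ) : UnitAddCircle)) - y ∈ B := by
      filter_upwards [hx] with y hy
      have h9 := hy.2 hxB
      have e : (S a (x, y)).1 = (x + x + ((a * sn x : ℝ) : UnitAddCircle)) - y := by
        simp only [S]
        abel
      rw [e] at h9
      exact h9
    have h9 : (volume : Measure UnitAddCircle) Bᶜ = 0 := by
      have hmp := Measure.measurePreserving_sub_left (volume : Measure UnitAddCircle)
        (x + x + ((a * sn x : ℝ) : UnitAddCircle))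
      have h10 := ae_iff.1 h8
      have h11 := hmp.measure_preimage hBm.compl.nullMeasurableSet
      rw [← h11]
      exact h10
    have h10 : ∀ᵐ z : Tor, z.1 ∈ B := by
      refine (Measure.quasiMeasurePreserving_fst (μ := (volume : Measure UnitAddCircle))
        (ν := (volume : Measure UnitAddCircle))).ae ?_
      exact mem_ae_iff.2 h9
    have h11 : ∀ᵐ z : Tor, z ∈ A := by
      filter_upwards [h10, hABp] with z hz1 hz2
      exact hz2.2 hz1
    exact mem_ae_iff.1 h11

end Q69.SM
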