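import Pool.Agent.Q69.SM.NoMean2
import Pool.Agent.Q69.SM.Dich

/-!
The averages over the kicks contract exponentially on the tangent bundle.
-/

set_option autoImplicit false

open MeasureTheory Filter Real Topology

namespace Q69.SM

section abs
variable {Ω X : Type*} [MeasurableSpace Ω] [MeasurableSpace X]
variable {P : Measure Ω} [IsProbabilityMeasure P] {μ : Measure X} [SigmaFinite μ]
  {f : Ω → X → X}

theorem avg_le (hf : Measurable (Function.uncurry f)) (hmp : ∀ ω, MeasurePreserving (f ω) μ μ)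
    {φ : X → ℝ} (h : L2 μ φ) : ∫ x, avg P f φ x ^ 2 ∂μ ≤ ∫ x, φ x ^ 2 ∂μ := by
  obtain ⟨-, -, h3⟩ := main_var (P := P) hf hmp h
  have : 0 ≤ ∫ z : Ω × X, (φ (f z.1 z.2) - avg P f φ z.2) ^ 2 ∂(P.prod μ) :=
    integral_nonneg fun z => sq_nonneg _
  linarith

theorem iter_le (hf : Measurable (Function.uncurry f)) (hmp : ∀ ω, MeasurePreserving (f ω) μ μ)
    {φ : X → ℝ} (h : L2 μ φ) (n : ℕ) :
    ∫ x, (avg P f)^[n] φ x ^ 2 ∂μ ≤ ∫ x, φ x ^ 2 ∂μ := by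
  induction n with
  | zero => exact le_rfl
  | succ n ih =>
    rw [Function.iterate_succ_apply']
    exact (avg_le (P := P) hf hmp (iter_L2 hf hmp h n)).trans ih

theorem exp_decay (hf : Measurable (Function.uncurry f))
    (hmp : ∀ ω, MeasurePreserving (f ω) μ μ) {N : ℕ} {η : ℝ} (hη : 0 < η) (hη1 : η ≤ 1)
    (hgap : ∀ φ : X → ℝ, L2 μ φ → ∫ x, (avg P f)^[N] φ x ^ 2 ∂μ ≤ (1 - η) * ∫ x, φ x ^ 2 ∂μ)
    {φ : X → ℝ} (h : L2 μ φ) (n : ℕ) :
    ∫ x, (avg P f)^[n] φ x ^ 2 ∂μ ≤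
      exp 1 * exp (-(η / (N + 1)) * n) * ∫ x, φ x ^ 2 ∂μ := by
  have hgap' : ∀ φ : X → ℝ, L2 μ φ →
      ∫ x, (avg P f)^[N+1] φ x ^ 2 ∂μ ≤ (1 - η) * ∫ x, φ x ^ 2 ∂μ := by
    intro φ hφ
    rw [Function.iterate_succ_apply']
    exact (avg_le (P := P) hf hmp (iter_L2 hf hmp hφ N)).trans (hgap φ hφ)
  have hk : ∀ k : ℕ, ∫ x, (avg P f)^[(N+1) * k] φ x ^ 2 ∂μ ≤
      (1 - η) ^ k * ∫ x, φ x ^ 2 ∂μ := by
    intro k
    induction k with
    | zero => simp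
    | succ k ih =>
      have e : (N + 1) * (k + 1) = (N + 1) + (N + 1) * k := by ring
      rw [e, Function.iterate_add_apply]
      refine (hgap' _ (iter_L2 hf hmp h _)).trans ?_
      rw [pow_succ]
      have := mul_le_mul_of_nonneg_left ih (by linarith : 0 ≤ 1 - η)
      linarith
  have hI : 0 ≤ ∫ x, φ x ^ 2 ∂μ := integral_nonneg fun x => sq_nonneg _
  have e1 : n = n % (N + 1) + (N + 1) * (n / (N + 1)) := (Nat.mod_add_div _ _).symm
  have h1 : ∫ x, (avg P f)^[n] φ x ^ 2 ∂μ ≤ (1 - η) ^ (n / (N + 1)) * ∫ x, φ x ^ 2 ∂μ := by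
    conv_lhs => rw [e1, Function.iterate_add_apply]
    exact (iter_le (P := P) hf hmp (iter_L2 hf hmp h _) _).trans (hk _)
  refine h1.trans (mul_le_mul_of_nonneg_right ?_ hI)
  have h2 : (1 - η) ^ (n / (N + 1)) ≤ exp (-η) ^ (n / (N + 1)) := by
    refine pow_le_pow_left₀ (by linarith) ?_ _
    have := Real.add_one_le_exp (-η)
    linarith
  refine h2.trans ?_
  rw [← Real.exp_nat_mul, ← Real.exp_add]
  apply Real.exp_le_exp.2
  have hN : (0 : ℝ) < (N : ℝ) + 1 := by positivity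
  have h3 : (n : ℝ) < ((n / (N + 1) : ℕ) + 1 : ℝ) * (N + 1) := by
    have h4 : n < (n / (N + 1) + 1) * (N + 1) := by
      have := Nat.lt_div_mul_add (a := n) (Nat.succ_pos N)
      calc n < n / (N + 1) * (N + 1) + (N + 1) := this
        _ = _ := by ring
    exact_mod_cast h4
  have h5 : (n : ℝ) / (N + 1) ≤ (n / (N + 1) : ℕ) + 1 := by
    rw [div_le_iff₀ hN]; exact h3.le
  have h6 : -(η / (N + 1)) * n = -(η * (n / (N + 1))) := by ring
  rw [h6]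
  have h7 := mul_le_mul_of_nonneg_left h5 hη.le
  nlinarith

end abs

theorem exists_pair (ν : Measure ℝ) [IsProbabilityMeasure ν] (h1 : ∀ a, ν {a} ≠ 1)
    (h2 : ν {a | sin (2 * π * a) ≠ 0} ≠ 0) :
    ∃ R t0 σ : ℝ, 0 ≤ R ∧ 0 < t0 ∧ 0 < σ ∧ ∃ D1 D2 : Set ℝ, MeasurableSet D1 ∧
      MeasurableSet D2 ∧ 0 < ν D1 ∧ 0 < ν D2 ∧
      (∀ a ∈ D1, |a| ≤ R ∧ σ ≤ |sin (2 * π * a)|) ∧ (∀ b ∈ D2, |b| ≤ R) ∧
      ∀ a ∈ D1, ∀ b ∈ D2, t0 ≤ |b - a| := by
  have hcov : {a : ℝ | sin (2 * π * a) ≠ 0} ⊆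
      ⋃ n : ℕ, {a : ℝ | |a| ≤ n ∧ 1 / ((n : ℝ) + 1) ≤ |sin (2 * π * a)|} := by
    intro a ha
    have ha' : 0 < |sin (2 * π * a)| := abs_pos.2 ha
    obtain ⟨n, hn⟩ := exists_nat_ge (max |a| (1 / |sin (2 * π * a)|))
    refine Set.mem_iUnion.2 ⟨n, (le_max_left _ _).trans hn, ?_⟩
    have h3 : 1 / |sin (2 * π * a)| ≤ n := (le_max_right _ _).trans hn
    rw [div_le_iff₀ ha'] at h3
    rw [div_le_iff₀ (by positivity)]
    nlinarith
  obtain ⟨n, hn⟩ : ∃ n : ℕ, ν {a : ℝ | |a| ≤ n ∧ 1 / ((n : ℝ) + 1) ≤ |sin (2 * π * a)|} ≠ 0 := by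
    by_contra hcon
    push Not at hcon
    exact h2 (measure_mono_null hcov (measure_iUnion_null hcon))
  obtain ⟨a1, -, ha1⟩ := exists_mem_forall_mem_nhdsWithin_pos_measure hn
  have hcov2 : ({a1}ᶜ : Set ℝ) ⊆ ⋃ k : ℕ, {b : ℝ | |b| ≤ k ∧ 1 / ((k : ℝ) + 1) ≤ |b - a1|} := by
    intro b hb
    have hb' : 0 < |b - a1| := abs_pos.2 (sub_ne_zero.2 hb)
    obtain ⟨k, hk⟩ := exists_nat_ge (max |b| (1 / |b - a1|))
    refine Set.mem_iUnion.2 ⟨k, (le_max_left _ _).trans hk, ?_⟩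
    have h3 : 1 / |b - a1| ≤ k := (le_max_right _ _).trans hk
    rw [div_le_iff₀ hb'] at h3
    rw [div_le_iff₀ (by positivity)]
    nlinarith
  obtain ⟨k, hk⟩ : ∃ k : ℕ, ν {b : ℝ | |b| ≤ k ∧ 1 / ((k : ℝ) + 1) ≤ |b - a1|} ≠ 0 := by
    by_contra hcon
    push Not at hcon
    have h3 := measure_mono_null hcov2 (measure_iUnion_null hcon)
    rw [prob_compl_eq_zero_iff (measurableSet_singleton a1)] at h3
    exact h1 a1 h3
  refine ⟨max n k, 1 / (2 * ((k : ℝ) + 1)), 1 / ((n : ℝ) + 1), by positivity, by positivity,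
    by positivity, {a : ℝ | |a| ≤ n ∧ 1 / ((n : ℝ) + 1) ≤ |sin (2 * π * a)|} ∩
      Metric.closedBall a1 (1 / (2 * ((k : ℝ) + 1))),
    {b : ℝ | |b| ≤ k ∧ 1 / ((k : ℝ) + 1) ≤ |b - a1|}, ?_, ?_, ?_, ?_, ?_, ?_, ?_⟩
  · refine MeasurableSet.inter ?_ Metric.isClosed_closedBall.measurableSet
    exact (measurableSet_le (f := fun a : ℝ => |a|) (g := fun _ => (n : ℝ)) (by fun_prop)
      measurable_const).inter (measurableSet_le (f := fun _ : ℝ => 1 / ((n : ℝ) + 1))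
      (g := fun a : ℝ => |sin (2 * π * a)|) measurable_const (by fun_prop))
  · exact (measurableSet_le (f := fun a : ℝ => |a|) (g := fun _ => (k : ℝ)) (by fun_prop)
      measurable_const).inter (measurableSet_le (f := fun _ : ℝ => 1 / ((k : ℝ) + 1))
      (g := fun b : ℝ => |b - a1|) measurable_const (by fun_prop))
  · apply ha1
    exact inter_mem self_mem_nhdsWithin (mem_nhdsWithin_of_mem_nhds
      (Metric.closedBall_mem_nhds a1 (by positivity)))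
  · exact pos_iff_ne_zero.2 hk
  · rintro a ⟨⟨h3, h4⟩, -⟩
    exact ⟨h3.trans (le_max_left _ _), h4⟩
  · rintro b ⟨h3, -⟩
    exact h3.trans (le_max_right _ _)
  · rintro a ⟨-, h3⟩ b ⟨-, h4⟩
    rw [Metric.mem_closedBall, Real.dist_eq] at h3
    have h5 := abs_sub_abs_le_abs_sub (b - a1) (a - a1)
    have e : b - a1 - (a - a1) = b - a := by ring
    rw [e] at h5
    have h6 : 1 / ((k : ℝ) + 1) = 1 / (2 * ((k : ℝ) + 1)) + 1 / (2 * ((k : ℝ) + 1)) := by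
      field_simp; norm_num
    linarith

/-- the gap -/
theorem gap (ν : Measure ℝ) [IsProbabilityMeasure ν] (h1 : ∀ a, ν {a} ≠ 1)
    (h2 : ν {a | sin (2 * π * a) ≠ 0} ≠ 0) :
    ∃ N : ℕ, ∃ η : ℝ, 0 < η ∧ η ≤ 1 ∧ ∀ φ : TB → ℝ, L2 volume φ →
      ∫ x, (avg ν TS)^[N] φ x ^ 2 ≤ (1 - η) * ∫ x, φ x ^ 2 := by
  by_contra hcon
  push Not at hcon
  obtain ⟨R, t0, σ, hR, ht0, hσ, D1, D2, hD1m, hD2m, hD1, hD2, hp1, hp2, hp3⟩ :=
    exists_pair ν h1 h2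
  obtain ⟨κ, hκ, hno⟩ := no_mean R t0 σ hR ht0 hσ
  have hr1 : 0 < ν.real D1 := ENNReal.toReal_pos hD1.ne' (measure_ne_top _ _)
  have hr2 : 0 < ν.real D2 := ENNReal.toReal_pos hD2.ne' (measure_ne_top _ _)
  obtain ⟨κ', hκ'⟩ : ∃ κ' : ℝ, κ' = min κ (min (ν.real D1 / 2) (ν.real D2 / 2)) := ⟨_, rfl⟩
  have hκ'0 : 0 < κ' := by rw [hκ']; positivity
  have hκ'1 : κ' ≤ κ := by rw [hκ']; exact min_le_left _ _
  have hκ'2 : κ' ≤ ν.real D1 / 2 := by
    rw [hκ']; exact (min_le_right _ _).trans (min_le_left _ _)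
  have hκ'3 : κ' ≤ ν.real D2 / 2 := by
    rw [hκ']; exact (min_le_right _ _).trans (min_le_right _ _)
  have hai := almost_invariant (P := ν) (μ := (volume : Measure TB)) measurable_TS mp_TS (by
    intro N η hη
    obtain ⟨φ, hφ, hlt⟩ := hcon N (min η 1) (by positivity) (min_le_right _ _)
    have hle := iter_le (P := ν) measurable_TS mp_TS hφ N
    have h0 : 0 ≤ ∫ x, φ x ^ 2 := integral_nonneg fun x => sq_nonneg _
    have hpos : 0 < ∫ x, φ x ^ 2 := by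
      rcases h0.lt_or_eq with h | h
      · exact h
      · rw [← h, mul_zero] at hlt
        rw [← h] at hle
        linarith
    refine ⟨φ, hφ, hpos, lt_of_le_of_lt ?_ hlt⟩
    have := min_le_left η 1
    nlinarith) κ' hκ'0
  obtain ⟨m, hmf, hac, hm1, hm2, D, hDm, hPD, hinv⟩ := hai
  have hmeet : ∀ E : Set ℝ, MeasurableSet E → κ' ≤ ν.real E / 2 → 0 < ν.real E →
      ∃ a ∈ D, a ∈ E := by
    intro E hE h3 h4
    by_contra hcon2
    push Not at hcon2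
    have hdis : Disjoint D E := Set.disjoint_left.2 hcon2
    have h5 := measureReal_union (μ := ν) hdis hE
    have h6 : ν.real (D ∪ E) ≤ 1 := measureReal_le_one
    linarith
  obtain ⟨a, haD, ha1⟩ := hmeet D1 hD1m hκ'2 hr1
  obtain ⟨b, hbD, hb2⟩ := hmeet D2 hD2m hκ'3 hr2
  refine hno a b (hp1 a ha1).1 (hp2 b hb2) (hp3 a ha1 b hb2) (hp1 a ha1).2 m hmf hac hm1
    (by linarith) ?_ ?_
  · intro A hA; exact (hinv a haD A hA).trans hκ'1
  · intro A hA; exact (hinv b hbD A hA).trans hκ'1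

end Q69.SM
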