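import Pool.Agent.Q69.SM.Std

/-!
There is no finite measure on the tangent bundle which is almost invariant under two standard maps.
-/

set_option autoImplicit false

open MeasureTheory Filter Real

namespace Q69.SM

/-- almost invariant -/
def AI (m : Measure TB) (κ : ℝ) (g : TB → TB) : Prop :=
  ∀ A : Set TB, MeasurableSet A → |m.real (g ⁻¹' A) - m.real A| ≤ κ

theorem AI_iter {m : Measure TB} {κ : ℝ} {g : TB → TB} (h : AI m κ g) (hg : Measurable g)
    (n : ℕ) {A : Set TB} (hA : MeasurableSet A) :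
    |m.real (g^[n] ⁻¹' A) - m.real A| ≤ n * κ := by
  induction n with
  | zero => simp
  | succ n ih =>
    have h1 : g^[n+1] ⁻¹' A = g ⁻¹' (g^[n] ⁻¹' A) := by
      rw [Function.iterate_succ, Set.preimage_comp]
    rw [h1]
    have h2 := h (g^[n] ⁻¹' A) ((hg.iterate n) hA)
    rw [abs_le] at h2 ih ⊢
    push_cast
    constructor <;> linarith [h2.1, h2.2, ih.1, ih.2]

theorem meas_TS (a : ℝ) : Measurable (TS a) := (mp_TS a).measurable

theorem AI_W {m : Measure TB} {κ a b : ℝ} (ha : AI m κ (TS a)) (hb : AI m κ (TS b)) :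
    AI m (2 * κ) (W (b - a)) := by
  intro A hA
  have hB : MeasurableSet ((TSi a) ⁻¹' A) := (continuous_TSi a).measurable hA
  have h1 := ha _ hB
  have h2 := hb _ hB
  have e1 : (TS a) ⁻¹' ((TSi a) ⁻¹' A) = A := by
    ext z; simp only [Set.mem_preimage, TSi_TS]
  have e2 : (TS b) ⁻¹' ((TSi a) ⁻¹' A) = (W (b - a)) ⁻¹' A := by
    ext z; simp only [Set.mem_preimage, TSi_TS']
  rw [e1] at h1
  rw [e2] at h2
  rw [abs_le] at h1 h2 ⊢
  constructor <;> linarith [h1.1, h1.2, h2.1, h2.2]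

theorem W_iter (t : ℝ) (n : ℕ) : (W t)^[n] = W (n * t) := by
  induction n with
  | zero =>
    funext z
    simp only [Function.iterate_zero, id, Nat.cast_zero, zero_mul]
    exact (W_zero z).symm
  | succ n ih =>
    rw [Function.iterate_succ', ih]
    funext z
    simp only [Function.comp]
    rw [W_W]
    congr 1
    push_cast; ring

/-- states away from the critical lines whose direction is not nearly vertical -/
def Aset (η K : ℝ) : Set TB := {z | η ≤ |cs z.1.1| ∧ |z.2.2| ≤ K * |z.2.1| ∧ z.2.1 ≠ 0}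

/-- nearly vertical directions -/
def Wst (K : ℝ) : Set TB := {z | K * |z.2.1| < |z.2.2|}

/-- states away from the critical lines -/
def Hset (η : ℝ) : Set TB := {z | η ≤ |cs z.1.1|}

/-- states whose previous point is away from the critical lines -/
def Hy (η : ℝ) : Set TB := {z | η ≤ |cs z.1.2|}

theorem meas_A (η K : ℝ) : MeasurableSet (Aset η K) := by
  have h1 : Measurable (fun z : TB => |cs z.1.1|) :=
    (continuous_cs.measurable.comp (by fun_prop)).abs
  have e : Aset η K = {z : TB | η ≤ |cs z.1.1|} ∩ ({z : TB | |z.2.2| ≤ K * |z.2.1|} ∩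
    {z : TB | z.2.1 = 0}ᶜ) := rfl
  rw [e]
  refine (measurableSet_le measurable_const h1).inter ((measurableSet_le ?_ ?_).inter ?_)
  · exact (Measurable.abs (by fun_prop))
  · exact measurable_const.mul (Measurable.abs (by fun_prop))
  · exact (measurableSet_eq_fun (by fun_prop) measurable_const).compl

theorem meas_W (K : ℝ) : MeasurableSet (Wst K) :=
  measurableSet_lt (measurable_const.mul (Measurable.abs (by fun_prop)))
    (Measurable.abs (by fun_prop))

theorem meas_H (η : ℝ) : MeasurableSet (Hset η) :=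
  measurableSet_le measurable_const (continuous_cs.measurable.comp (by fun_prop)).abs

theorem meas_Hy (η : ℝ) : MeasurableSet (Hy η) :=
  measurableSet_le measurable_const (continuous_cs.measurable.comp (by fun_prop)).abs

section
variable {m : Measure TB} [IsFiniteMeasure m] {κ a b R t0 η K : ℝ}

theorem step1 (hm : m.real Set.univ ≤ 1) (hκ : 0 ≤ κ) (hη : 0 < η)
    (ht0 : 0 < t0) (ht : t0 ≤ |b - a|) (ha : AI m κ (TS a)) (hb : AI m κ (TS b)) (n0 r : ℕ)
    (hn0 : 2 * K + 1 ≤ 2 * π * t0 * η * n0) :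
    r * m.real (Aset η K) ≤ 1 + 2 * κ * n0 * r ^ 2 := by
  obtain ⟨t, htd⟩ : ∃ t, t = b - a := ⟨_, rfl⟩
  rw [← htd] at ht
  have hW := AI_W ha hb
  rw [← htd] at hW
  have hWm : Measurable (W t) := (continuous_W t).measurable
  have hd : Set.PairwiseDisjoint (↑(Finset.range r))
      (fun i : ℕ => (W t)^[i * n0] ⁻¹' (Aset η K)) := by
    have key : ∀ i j : ℕ, i < j → Disjoint ((W t)^[i * n0] ⁻¹' (Aset η K))
        ((W t)^[j * n0] ⁻¹' (Aset η K)) := by
      intro i j hij
      rw [Set.disjoint_left]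
      rintro z h1 h2
      rw [Set.mem_preimage, W_iter] at h1 h2
      obtain ⟨h1a, h1b, h1c⟩ := h1
      obtain ⟨-, h2b, -⟩ := h2
      simp only [W] at h1a h1b h1c h2b
      obtain ⟨c, hc⟩ : ∃ c, c = cs z.1.1 := ⟨_, rfl⟩
      obtain ⟨u, hu⟩ : ∃ u, u = z.2.1 := ⟨_, rfl⟩
      obtain ⟨v, hv⟩ : ∃ v, v = z.2.2 := ⟨_, rfl⟩
      rw [← hc] at h1a h1b h2b
      rw [← hu] at h1b h1c h2b
      rw [← hv] at h1b h2b
      have hupos : 0 < |u| := abs_pos.2 h1c
      have h3 : |2 * π * ((j * n0 : ℕ) * t) * c * u - 2 * π * ((i * n0 : ℕ) * t) * c * u| ≤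
          2 * K * |u| := by
        have : 2 * π * ((j * n0 : ℕ) * t) * c * u - 2 * π * ((i * n0 : ℕ) * t) * c * u =
          (v - 2 * π * ((i * n0 : ℕ) * t) * c * u) - (v - 2 * π * ((j * n0 : ℕ) * t) * c * u) := by
          ring
        rw [this]
        have h4 := abs_sub (v - 2 * π * ((i * n0 : ℕ) * t) * c * u)
          (v - 2 * π * ((j * n0 : ℕ) * t) * c * u)
        linarith
      have h5 : 2 * π * ((j * n0 : ℕ) * t) * c * u - 2 * π * ((i * n0 : ℕ) * t) * c * u =
          (2 * π * n0 * ((j : ℝ) - i)) * t * c * u := by push_cast; ring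
      rw [h5, abs_mul, abs_mul, abs_mul] at h3
      have hji : (1 : ℝ) ≤ (j : ℝ) - i := by
        have : (i : ℝ) + 1 ≤ j := by exact_mod_cast hij
        linarith
      have h6 : 2 * π * n0 ≤ |2 * π * n0 * ((j : ℝ) - i)| := by
        rw [abs_of_nonneg (by positivity)]
        have : (0:ℝ) ≤ 2 * π * n0 := by positivity
        nlinarith
      have h7 : 2 * π * n0 * t0 * η ≤ |2 * π * n0 * ((j : ℝ) - i)| * |t| * |c| := by
        have h8 : 2 * π * n0 * t0 ≤ |2 * π * n0 * ((j : ℝ) - i)| * |t| :=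
          mul_le_mul h6 ht ht0.le (abs_nonneg _)
        exact mul_le_mul h8 h1a hη.le (by positivity)
      have h9 : |2 * π * n0 * ((j : ℝ) - i)| * |t| * |c| ≤ 2 * K :=
        le_of_mul_le_mul_right h3 hupos
      have h10 : 2 * π * n0 * t0 * η = 2 * π * t0 * η * n0 := by ring
      linarith
    intro i _ j _ hij
    rcases Nat.lt_or_gt_of_ne hij with h | h
    · exact key i j h
    · exact (key j i h).symm
  have hsum : ∑ i ∈ Finset.range r, m.real ((W t)^[i * n0] ⁻¹' (Aset η K)) ≤ 1 := by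
    rw [← measureReal_biUnion_finset hd (fun i _ => (hWm.iterate _) (meas_A η K))]
    exact (measureReal_mono (Set.subset_univ _)).trans hm
  have hlow : ∀ i ∈ Finset.range r, m.real (Aset η K) - 2 * κ * n0 * r ≤
      m.real ((W t)^[i * n0] ⁻¹' (Aset η K)) := by
    intro i hi
    have h1 := AI_iter hW hWm (i * n0) (meas_A η K)
    rw [abs_le] at h1
    have h2 : ((i * n0 : ℕ) : ℝ) * (2 * κ) ≤ 2 * κ * n0 * r := by
      have h3 : (i : ℝ) ≤ r := by exact_mod_cast (Finset.mem_range.1 hi).le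
      push_cast
      have h4 : (0:ℝ) ≤ 2 * κ * n0 := by positivity
      nlinarith
    linarith [h1.1]
  have := (Finset.sum_le_sum hlow).trans hsum
  rw [Finset.sum_const, Finset.card_range, nsmul_eq_mul] at this
  nlinarith

/-- the direction is at most `θ` -/
def Good (θ : ℝ) (z : TB) : Prop := z.2.1 ≠ 0 ∧ |z.2.2| ≤ θ * |z.2.1|

theorem not_W_of_Good {θ : ℝ} (hθ : θ ≤ K) {z : TB} (h : Good θ z) : z ∉ Wst K := by
  intro h'
  have h1 : K * |z.2.1| < |z.2.2| := h'
  have h2 := mul_le_mul_of_nonneg_right hθ (abs_nonneg z.2.1)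
  linarith [h.2]

theorem cs_of_Good {θ : ℝ} (hθ : θ ≤ K) {z : TB} (h : Good θ z) (hz : z ∉ Aset η K) :
    |cs z.1.1| < η := by
  by_contra hcon
  rw [not_lt] at hcon
  exact hz ⟨hcon, h.2.trans (mul_le_mul_of_nonneg_right hθ (abs_nonneg _)), h.1⟩

theorem first (haR : |a| ≤ R) (hK : 2 + 2 * π * R + 4 ≤ K) {z : TB} (hz : z ∈ Wst K) :
    Good (1 / 4) (TS a z) := by
  have h1 : K * |z.2.1| < |z.2.2| := hz
  obtain ⟨c, hc⟩ : ∃ c, c = cs z.1.1 := ⟨_, rfl⟩
  obtain ⟨u, hu⟩ : ∃ u, u = z.2.1 := ⟨_, rfl⟩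
  obtain ⟨v, hv⟩ : ∃ v, v = z.2.2 := ⟨_, rfl⟩
  have hcl : |c| ≤ 1 := by rw [hc]; exact abs_cs_le _
  rw [← hu, ← hv] at h1
  have h2 : |2 + 2 * π * a * c| ≤ 2 + 2 * π * R := by
    have h3 := abs_add_le 2 (2 * π * a * c)
    have h4 : |2 * π * a * c| ≤ 2 * π * R := by
      rw [abs_mul, abs_mul, abs_of_pos (by positivity : (0:ℝ) < 2 * π)]
      have h5 : 2 * π * |a| * |c| ≤ 2 * π * R * 1 :=
        mul_le_mul (mul_le_mul_of_nonneg_left haR (by positivity)) hcl (abs_nonneg _)
          (by have := (abs_nonneg a).trans haR; positivity)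
      linarith
    have h6 : |(2:ℝ)| = 2 := abs_of_pos two_pos
    linarith
  have h3 : 4 * |u| < |(2 + 2 * π * a * c) * u - v| := by
    have h4 := abs_sub_abs_le_abs_sub v ((2 + 2 * π * a * c) * u)
    rw [abs_sub_comm v, abs_mul] at h4
    have h5 := mul_le_mul_of_nonneg_right h2 (abs_nonneg u)
    have h6 := mul_le_mul_of_nonneg_right hK (abs_nonneg u)
    nlinarith
  constructor
  · simp only [TS]
    rw [← hc, ← hu, ← hv]
    intro h0
    rw [h0, abs_zero] at h3
    linarith [abs_nonneg u]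
  · simp only [TS]
    rw [← hc, ← hu, ← hv]
    linarith

theorem next (haR : |a| ≤ R) (hη : 2 * π * R * η ≤ 1 / 20) {θ θ' : ℝ} {z : TB}
    (hz : Good θ z) (hc' : |cs z.1.1| < η) (hθ' : 0 < θ') (hθ : 1 ≤ θ' * (39 / 20 - θ)) :
    Good θ' (TS a z) := by
  obtain ⟨h1, h2⟩ := hz
  obtain ⟨c, hc⟩ : ∃ c, c = cs z.1.1 := ⟨_, rfl⟩
  obtain ⟨u, hu⟩ : ∃ u, u = z.2.1 := ⟨_, rfl⟩
  obtain ⟨v, hv⟩ : ∃ v, v = z.2.2 := ⟨_, rfl⟩
  rw [← hc] at hc'
  rw [← hu] at h1 h2
  rw [← hv] at h2
  have hup : 0 < |u| := abs_pos.2 h1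
  have h3 : 39 / 20 ≤ |2 + 2 * π * a * c| := by
    have h4 : |2 * π * a * c| ≤ 1 / 20 := by
      rw [abs_mul, abs_mul, abs_of_pos (by positivity : (0:ℝ) < 2 * π)]
      have h5 : 2 * π * |a| * |c| ≤ 2 * π * R * η :=
        mul_le_mul (mul_le_mul_of_nonneg_left haR (by positivity)) hc'.le (abs_nonneg _)
          (by have := (abs_nonneg a).trans haR; positivity)
      linarith
    rw [abs_le] at h4
    rw [abs_of_nonneg (by linarith [h4.1])]
    linarith [h4.1]
  have h4 : (39 / 20 - θ) * |u| ≤ |(2 + 2 * π * a * c) * u - v| := by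
    have h5 := abs_sub_abs_le_abs_sub ((2 + 2 * π * a * c) * u) v
    rw [abs_mul] at h5
    have h6 := mul_le_mul_of_nonneg_right h3 (abs_nonneg u)
    nlinarith
  have h5 : |u| ≤ θ' * |(2 + 2 * π * a * c) * u - v| := by
    have h6 := mul_le_mul_of_nonneg_left h4 hθ'.le
    have h7 := mul_le_mul_of_nonneg_right hθ (abs_nonneg u)
    nlinarith
  constructor
  · simp only [TS]
    rw [← hc, ← hu, ← hv]
    intro h0
    rw [h0, abs_zero, mul_zero] at h5
    linarith
  · simp only [TS]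
    rw [← hc, ← hu, ← hv]
    exact h5

/-- nearly vertical directions do not come back within four steps -/
theorem no_return (haR : |a| ≤ R) (hη : 2 * π * R * η ≤ 1 / 20) (hK : 2 + 2 * π * R + 4 ≤ K)
    {z : TB} (hz : z ∈ Wst K) (d : ℕ) (hd1 : 1 ≤ d) (hd4 : d ≤ 4)
    (h : ∀ l : ℕ, 1 ≤ l → l < d → (TS a)^[l] z ∉ Aset η K) : (TS a)^[d] z ∉ Wst K := by
  have hR : 0 ≤ R := (abs_nonneg a).trans haR
  have hK6 : (6 : ℝ) ≤ K := by
    have : 0 ≤ 2 * π * R := by positivity
    linarith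
  have g1 : Good (1 / 4) ((TS a)^[1] z) := by
    rw [Function.iterate_one]; exact first haR hK hz
  have g2 : 1 < d → Good (3 / 5) ((TS a)^[2] z) := fun hd => by
    show Good (3 / 5) (TS a ((TS a)^[1] z))
    exact next haR hη g1 (cs_of_Good (by linarith) g1 (h 1 le_rfl hd)) (by norm_num)
      (by norm_num)
  have g3 : 2 < d → Good (3 / 4) ((TS a)^[3] z) := fun hd => by
    show Good (3 / 4) (TS a ((TS a)^[2] z))
    have := g2 (by omega)
    exact next haR hη this (cs_of_Good (by linarith) this (h 2 (by norm_num) hd)) (by norm_num)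
      (by norm_num)
  have g4 : 3 < d → Good (5 / 6) ((TS a)^[4] z) := fun hd => by
    show Good (5 / 6) (TS a ((TS a)^[3] z))
    have := g3 (by omega)
    exact next haR hη this (cs_of_Good (by linarith) this (h 3 (by norm_num) hd)) (by norm_num)
      (by norm_num)
  interval_cases d
  · exact not_W_of_Good (by linarith) g1
  · exact not_W_of_Good (by linarith) (g2 (by norm_num))
  · exact not_W_of_Good (by linarith) (g3 (by norm_num))
  · exact not_W_of_Good (by linarith) (g4 (by norm_num))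

theorem step2 (hm : m.real Set.univ ≤ 1) (haR : |a| ≤ R) (hη : 2 * π * R * η ≤ 1 / 20)
    (hK : 2 + 2 * π * R + 4 ≤ K) (ha : AI m κ (TS a)) :
    m.real (Wst K) ≤ 1 / 5 + 3 * m.real (Aset η K) + 8 * κ := by
  obtain ⟨N, hN⟩ : ∃ N : Set TB, N = ⋃ l ∈ Finset.Icc 1 3, (TS a)^[l] ⁻¹' (Aset η K) := ⟨_, rfl⟩
  have hTm := meas_TS a
  have hNm : MeasurableSet N := by
    rw [hN]
    exact Finset.measurableSet_biUnion _ fun l _ => (hTm.iterate l) (meas_A η K)
  have hNle : m.real N ≤ 3 * m.real (Aset η K) + 6 * κ := by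
    rw [hN]
    refine (measureReal_biUnion_finset_le _ _).trans ?_
    have e : Finset.Icc 1 3 = ({1, 2, 3} : Finset ℕ) := by decide
    rw [e, Finset.sum_insert (by decide), Finset.sum_insert (by decide), Finset.sum_singleton]
    have h1 := AI_iter ha hTm 1 (meas_A η K)
    have h2 := AI_iter ha hTm 2 (meas_A η K)
    have h3 := AI_iter ha hTm 3 (meas_A η K)
    rw [abs_le] at h1 h2 h3
    push_cast at h1 h2 h3
    linarith [h1.2, h2.2, h3.2]
  have hd : Set.PairwiseDisjoint (↑(Finset.range 5))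
      (fun i : ℕ => ((TS a)^[i] ⁻¹' (Wst K)) \ N) := by
    have key : ∀ i j : ℕ, i < j → j ≤ 4 → Disjoint (((TS a)^[i] ⁻¹' (Wst K)) \ N)
        (((TS a)^[j] ⁻¹' (Wst K)) \ N) := by
      intro i j hij hj
      rw [Set.disjoint_left]
      rintro z ⟨h1, h2⟩ ⟨h3, -⟩
      have h4 := no_return haR hη hK (z := (TS a)^[i] z) h1 (j - i) (by omega) (by omega) (by
        intro l hl1 hl2 hcon
        apply h2
        rw [hN]
        simp only [Set.mem_iUnion]
        refine ⟨l + i, Finset.mem_Icc.2 ⟨by omega, by omega⟩, ?_⟩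
        rw [Set.mem_preimage, Function.iterate_add_apply]
        exact hcon)
      apply h4
      rw [← Function.iterate_add_apply, Nat.sub_add_cancel hij.le]
      exact h3
    intro i hi j hj hij
    have hi' : i < 5 := by simpa using hi
    have hj' : j < 5 := by simpa using hj
    rcases Nat.lt_or_gt_of_ne hij with h | h
    · exact key i j h (by omega)
    · exact (key j i h (by omega)).symm
  have hsum : ∑ i ∈ Finset.range 5, m.real (((TS a)^[i] ⁻¹' (Wst K)) \ N) ≤ 1 := by
    rw [← measureReal_biUnion_finset hd (fun i _ => ((hTm.iterate _) (meas_W K)).diff hNm)]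
    exact (measureReal_mono (Set.subset_univ _)).trans hm
  have hlow : ∀ i ∈ Finset.range 5, m.real (Wst K) - i * κ - m.real N ≤
      m.real (((TS a)^[i] ⁻¹' (Wst K)) \ N) := by
    intro i _
    have h1 := AI_iter ha hTm i (meas_W K)
    rw [abs_le] at h1
    have h2 : m.real ((TS a)^[i] ⁻¹' (Wst K)) ≤ m.real (((TS a)^[i] ⁻¹' (Wst K)) \ N) +
        m.real N := by
      refine (measureReal_mono (s₂ := (((TS a)^[i] ⁻¹' (Wst K)) \ N) ∪ N) ?_).trans
        (measureReal_union_le _ _)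
      intro z hz
      by_cases hzN : z ∈ N
      · exact Or.inr hzN
      · exact Or.inl ⟨hz, hzN⟩
    linarith [h1.1]
  have := (Finset.sum_le_sum hlow).trans hsum
  simp only [Finset.sum_range_succ, Finset.sum_range_zero] at this
  push_cast at this
  linarith

end

end Q69.SM
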