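import Pool.Agent.Q69.SM.NoMean

/-!
The final contradiction: no almost invariant measures.
-/

set_option autoImplicit false

open MeasureTheory Filter Real

namespace Q69.SM

theorem null_zero : (volume : Measure TB) {z : TB | z.2.1 = 0} = 0 := by
  have e : {z : TB | z.2.1 = 0} = (Set.univ : Set Tor) ×ˢ (({0} : Set ℝ) ×ˢ (Set.univ : Set ℝ)) := by
    ext z; simp
  have h : (volume : Measure (ℝ × ℝ)) (({0} : Set ℝ) ×ˢ (Set.univ : Set ℝ)) = 0 := by
    rw [Measure.volume_eq_prod, Measure.prod_prod]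
    simp
  rw [e]
  change ((volume : Measure Tor).prod (volume : Measure (ℝ × ℝ))) _ = 0
  rw [Measure.prod_prod, h, mul_zero]

section
variable {m : Measure TB} [IsFiniteMeasure m] {κ a b R t0 η K : ℝ}

theorem step3 (hac : m ≪ volume) :
    m.real (Hset η) ≤ m.real (Aset η K) + m.real (Wst K) := by
  have h0 : m.real {z : TB | z.2.1 = 0} = 0 := by
    rw [Measure.real, hac null_zero]; rfl
  have h1 : Hset η ⊆ (Aset η K ∪ Wst K) ∪ {z : TB | z.2.1 = 0} := by
    intro z hz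
    by_cases h2 : z.2.1 = 0
    · exact Or.inr h2
    · left
      by_cases h3 : K * |z.2.1| < |z.2.2|
      · exact Or.inr h3
      · exact Or.inl ⟨hz, not_lt.1 h3, h2⟩
  have h2 := measureReal_mono (μ := m) h1
  have h3 := measureReal_union_le (μ := m) (Aset η K ∪ Wst K) {z : TB | z.2.1 = 0}
  have h4 := measureReal_union_le (μ := m) (Aset η K) (Wst K)
  linarith

/-- trigonometry at the last step -/
theorem trig {x y : UnitAddCircle} {σ : ℝ} (haR : |a| ≤ R) (hη0 : 0 < η) (hη1 : η ≤ 1 / 20)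
    (hηR : 2 * π * R * η ≤ 1) (hσ : σ ≤ |sin (2 * π * a)|) (hησ : 10 * η < σ)
    (h1 : |cs x| < η) (h2 : |cs y| < η)
    (h3 : |cs (x + x - y + ((a * sn x : ℝ) : UnitAddCircle))| < η) : False := by
  obtain ⟨w, hw⟩ : ∃ w : UnitAddCircle, w = ((a * sn x : ℝ) : UnitAddCircle) := ⟨_, rfl⟩
  rw [← hw] at h3
  obtain ⟨c, hc⟩ : ∃ c, c = cs x := ⟨_, rfl⟩
  obtain ⟨s, hs⟩ : ∃ s, s = sn x := ⟨_, rfl⟩
  obtain ⟨c', hc'⟩ : ∃ c, c = cs y := ⟨_, rfl⟩
  obtain ⟨s', hs'⟩ : ∃ s, s = sn y := ⟨_, rfl⟩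
  obtain ⟨α, hα⟩ : ∃ α, α = cs (x + x - y) := ⟨_, rfl⟩
  obtain ⟨β, hβ⟩ : ∃ β, β = sn (x + x - y) := ⟨_, rfl⟩
  have hcs := cs_sq_add x
  have hcs' := cs_sq_add y
  have hαβ := cs_sq_add (x + x - y)
  have hww := cs_sq_add w
  have hs'1 : |s'| ≤ 1 := by rw [hs']; exact abs_sn_le y
  have hs1 : |s| ≤ 1 := by rw [hs]; exact abs_sn_le x
  have hw1 : |cs w| ≤ 1 := abs_cs_le w
  have e1 : α = (c * c - s * s) * c' + (s * c + c * s) * s' := by
    rw [hα, sub_eq_add_neg, cs_add, cs_neg, sn_neg, cs_add, sn_add, ← hc, ← hs, ← hc', ← hs']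
    ring
  rw [← hc, ← hs] at hcs
  rw [← hα, ← hβ] at hαβ
  rw [← hc] at h1
  rw [← hc'] at h2
  rw [cs_add, ← hα, ← hβ] at h3
  have hcc : |c * c - s * s| ≤ 1 := by
    rw [abs_le]
    constructor <;> nlinarith [sq_nonneg c, sq_nonneg s]
  have hsc : |s * c + c * s| ≤ 2 * η := by
    have : s * c + c * s = 2 * (s * c) := by ring
    rw [this, abs_mul, abs_mul, abs_of_pos (two_pos : (0:ℝ) < 2)]
    have := mul_le_mul hs1 h1.le (abs_nonneg _) zero_le_one
    linarith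
  have hα3 : |α| ≤ 3 * η := by
    rw [e1]
    refine (abs_add_le _ _).trans ?_
    rw [abs_mul, abs_mul]
    have g1 := mul_le_mul hcc h2.le (abs_nonneg _) zero_le_one
    have g2 := mul_le_mul hsc hs'1 (abs_nonneg _) (by positivity)
    linarith
  have hβ2 : 1 / 2 ≤ |β| := by
    have g1 : α ^ 2 ≤ (3 * η) ^ 2 := by
      rw [← sq_abs α]
      exact pow_le_pow_left₀ (abs_nonneg _) hα3 2
    have g2 : (1 / 2 : ℝ) ^ 2 ≤ |β| ^ 2 := by
      rw [sq_abs]
      nlinarith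
    exact le_of_sq_le_sq g2 (abs_nonneg _) |>.trans le_rfl
  have hsnw : |sn w| ≤ 8 * η := by
    have g1 : |β * sn w| ≤ 4 * η := by
      have g2 : β * sn w = α * cs w - (α * cs w - β * sn w) := by ring
      rw [g2]
      refine (abs_sub _ _).trans ?_
      rw [abs_mul]
      have g3 := mul_le_mul hα3 hw1 (abs_nonneg _) (by positivity)
      linarith
    rw [abs_mul] at g1
    have g4 := mul_le_mul_of_nonneg_right hβ2 (abs_nonneg (sn w))
    linarith
  rw [hw, sn_coe, ← hs] at hsnw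
  -- compare `sin (2π a s)` with `± sin (2π a)`
  have hR : 0 ≤ R := (abs_nonneg a).trans haR
  have hs2 : 1 - |s| ≤ η ^ 2 := by
    have g1 : c ^ 2 ≤ η ^ 2 := by
      rw [← sq_abs c]
      exact pow_le_pow_left₀ (abs_nonneg _) h1.le 2
    have g2 : |s| ^ 2 = 1 - c ^ 2 := by rw [sq_abs]; linarith
    nlinarith [abs_nonneg s]
  have hcomp : |sin (2 * π * a)| ≤ |sin (2 * π * (a * s))| + 2 * π * R * η ^ 2 := by
    have key : |sin (2 * π * (a * |s|)) - sin (2 * π * a)| ≤ 2 * π * R * η ^ 2 := by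
      have g1 : |sin (2 * π * (a * |s|)) - sin (2 * π * a)| ≤
          |2 * π * (a * |s|) - 2 * π * a| := by
        have := Real.abs_sin_sub_sin_le (2 * π * (a * |s|)) (2 * π * a)
        exact this
      refine g1.trans ?_
      have g2 : 2 * π * (a * |s|) - 2 * π * a = -(2 * π * a * (1 - |s|)) := by ring
      rw [g2, abs_neg, abs_mul, abs_mul, abs_of_pos (by positivity : (0:ℝ) < 2 * π),
        abs_of_nonneg (by linarith : 0 ≤ 1 - |s|)]
      exact mul_le_mul (mul_le_mul_of_nonneg_left haR (by positivity)) hs2 (by linarith)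
        (by positivity)
    have g3 : |sin (2 * π * (a * s))| = |sin (2 * π * (a * |s|))| := by
      rcases abs_choice s with h | h
      · rw [h]
      · rw [h, mul_neg, mul_neg, sin_neg, abs_neg]
    rw [g3]
    have g4 := abs_sub_abs_le_abs_sub (sin (2 * π * a)) (sin (2 * π * (a * |s|)))
    rw [abs_sub_comm] at g4
    linarith
  have hlast : 2 * π * R * η ^ 2 ≤ η := by
    calc 2 * π * R * η ^ 2 = (2 * π * R * η) * η := by ring
      _ ≤ 1 * η := mul_le_mul_of_nonneg_right hηR hη0.le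
      _ = η := one_mul _
  linarith

end

/-- **No almost invariant measures** on the tangent bundle for two different standard maps `S_a`,
`S_b`, uniformly for `|a|, |b| ≤ R`, `|a - b| ≥ t0`, `|sin 2πa| ≥ σ`. -/
theorem no_mean (R t0 σ : ℝ) (hR : 0 ≤ R) (ht0 : 0 < t0) (hσ : 0 < σ) :
    ∃ κ : ℝ, 0 < κ ∧ ∀ a b : ℝ, |a| ≤ R → |b| ≤ R → t0 ≤ |b - a| → σ ≤ |sin (2 * π * a)| →
      ∀ m : Measure TB, IsFiniteMeasure m → m ≪ volume → m.real Set.univ ≤ 1 →
        1 - κ ≤ m.real Set.univ → AI m κ (TS a) → AI m κ (TS b) → False := by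
  obtain ⟨η, hη⟩ : ∃ η : ℝ, η = min (1 / (400 * (1 + R))) (σ / 20) := ⟨_, rfl⟩
  have hη0 : 0 < η := by rw [hη]; positivity
  have hηa : η ≤ 1 / (400 * (1 + R)) := by rw [hη]; exact min_le_left _ _
  have hηb : η ≤ σ / 20 := by rw [hη]; exact min_le_right _ _
  have hηR : η * (400 * (1 + R)) ≤ 1 := by
    rwa [le_div_iff₀ (by positivity)] at hηa
  have hη1 : η ≤ 1 / 400 := by nlinarith
  have hRη : R * η ≤ 1 / 400 := by nlinarith
  have hπ := Real.pi_lt_four
  have hπ0 := Real.pi_pos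
  have hRη2 : 2 * π * R * η ≤ 1 / 20 := by
    have : 2 * π * R * η = 2 * π * (R * η) := by ring
    rw [this]
    have h1 : 0 ≤ R * η := by positivity
    nlinarith
  obtain ⟨K, hK⟩ : ∃ K : ℝ, K = 2 + 2 * π * R + 4 := ⟨_, rfl⟩
  obtain ⟨n0, hn0⟩ := exists_nat_ge ((2 * K + 1) / (2 * π * t0 * η))
  have hn0' : 2 * K + 1 ≤ 2 * π * t0 * η * n0 := by
    rw [div_le_iff₀ (by positivity)] at hn0
    linarith
  obtain ⟨κ, hκ⟩ : ∃ κ : ℝ, κ = min (1 / 1000) (1 / (2 * ((n0 : ℝ) + 1) * 200 ^ 2)) := ⟨_, rfl⟩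
  have hκ0 : 0 < κ := by rw [hκ]; positivity
  have hκ1 : κ ≤ 1 / 1000 := by rw [hκ]; exact min_le_left _ _
  have hκ2 : κ * (2 * (n0 + 1) * 200 ^ 2) ≤ 1 := by
    have : κ ≤ 1 / (2 * ((n0 : ℝ) + 1) * 200 ^ 2) := by rw [hκ]; exact min_le_right _ _
    rwa [le_div_iff₀ (by positivity)] at this
  refine ⟨κ, hκ0, ?_⟩
  intro a b haR hbR ht hsin m hmf hac hm1 hm2 ha hb
  have hA : m.real (Aset η K) ≤ 1 / 100 := by
    have h1 := step1 (m := m) hm1 hκ0.le hη0 ht0 ht ha hb n0 200 hn0'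
    push_cast at h1
    have h2 : 2 * κ * n0 * 200 ^ 2 ≤ 1 := by nlinarith
    linarith
  have hW := step2 (m := m) (K := K) hm1 haR hRη2 hK.ge ha
  have hH := step3 (m := m) (η := η) (K := K) hac
  have hH' : m.real (Hset η) ≤ 1 / 4 := by linarith
  have e1 : (TS a) ⁻¹' (Hy η) = Hset η := by
    ext z; simp only [Set.mem_preimage, Hy, Hset, TS, S, Set.mem_setOf_eq]
  have h1 := ha (Hy η) (meas_Hy η)
  have h2 := ha (Hset η) (meas_H η)
  rw [e1] at h1
  rw [abs_le] at h1 h2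
  have hsub : (Set.univ : Set TB) ⊆ (Hset η ∪ Hy η) ∪ (TS a) ⁻¹' (Hset η) := by
    intro z _
    by_contra hcon
    simp only [Set.mem_union, not_or, Hset, Hy, Set.mem_setOf_eq, Set.mem_preimage, not_le, TS,
      S] at hcon
    exact trig haR hη0 (by linarith) (by linarith) hsin (by linarith) hcon.1.1 hcon.1.2 hcon.2
  have h3 := measureReal_mono (μ := m) hsub
  have h4 := measureReal_union_le (μ := m) (Hset η ∪ Hy η) ((TS a) ⁻¹' (Hset η))
  have h5 := measureReal_union_le (μ := m) (Hset η) (Hy η)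
  linarith [h1.1, h1.2, h2.1, h2.2]

end Q69.SM
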