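import Pool.Agent.Q69.SM.Seq

/-!
From the tangent bundle of the torus to derivatives of random compositions on the plane.
-/

set_option autoImplicit false

open MeasureTheory Filter Real

namespace Q69.SM

/-- the lift of the standard map to the plane -/
noncomputable def planeMap (a : ℝ) (p : ℝ × ℝ) : ℝ × ℝ :=
  (2 * p.1 - p.2 + a * sin (2 * π * p.1), p.1)

/-- the random composition `S (w (n-1)) ∘ ⋯ ∘ S (w 0)` on the plane -/
noncomputable def comp (w : ℕ → ℝ) : ℕ → ℝ × ℝ → ℝ × ℝ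
  | 0 => fun p => p
  | n + 1 => fun p => planeMap (w n) (comp w n p)

/-- derivative of `planeMap a` -/
noncomputable def dmap (a : ℝ) (p : ℝ × ℝ) : (ℝ × ℝ) →L[ℝ] (ℝ × ℝ) :=
  ((2 + 2 * π * a * cos (2 * π * p.1)) • ContinuousLinearMap.fst ℝ ℝ ℝ -
    ContinuousLinearMap.snd ℝ ℝ ℝ).prod (ContinuousLinearMap.fst ℝ ℝ ℝ)

theorem dmap_apply (a : ℝ) (p V : ℝ × ℝ) :
    dmap a p V = ((2 + 2 * π * a * cos (2 * π * p.1)) * V.1 - V.2, V.1) := by
  simp [dmap]

theorem hasFDerivAt_planeMap (a : ℝ) (p : ℝ × ℝ) : HasFDerivAt (planeMap a) (dmap a p) p := by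
  have h1 : HasFDerivAt (fun q : ℝ × ℝ => q.1) (ContinuousLinearMap.fst ℝ ℝ ℝ) p :=
    hasFDerivAt_fst
  have h2 : HasFDerivAt (fun q : ℝ × ℝ => q.2) (ContinuousLinearMap.snd ℝ ℝ ℝ) p :=
    hasFDerivAt_snd
  have h3 : HasDerivAt (fun x : ℝ => 2 * x + a * sin (2 * π * x))
      (2 + 2 * π * a * cos (2 * π * p.1)) p.1 := by
    have h := ((hasDerivAt_id p.1).const_mul (2 * π)).sin.const_mul a
    have h' := ((hasDerivAt_id p.1).const_mul 2).add h
    refine (h'.congr_deriv ?_)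
    simp only [id]
    ring
  have h4 : HasFDerivAt (fun q : ℝ × ℝ => 2 * q.1 + a * sin (2 * π * q.1) - q.2)
      ((2 + 2 * π * a * cos (2 * π * p.1)) • ContinuousLinearMap.fst ℝ ℝ ℝ -
        ContinuousLinearMap.snd ℝ ℝ ℝ) p :=
    (h3.comp_hasFDerivAt p h1).sub h2
  have h5 := h4.prodMk h1
  have e : planeMap a = fun q : ℝ × ℝ => (2 * q.1 + a * sin (2 * π * q.1) - q.2, q.1) := by
    funext q
    unfold planeMap
    refine Prod.ext ?_ rfl
    simp only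
    ring
  rw [e]
  exact h5

/-- derivative of the random composition -/
noncomputable def dcomp (w : ℕ → ℝ) : ℕ → ℝ × ℝ → ((ℝ × ℝ) →L[ℝ] (ℝ × ℝ))
  | 0 => fun _ => ContinuousLinearMap.id ℝ (ℝ × ℝ)
  | n + 1 => fun p => (dmap (w n) (comp w n p)).comp (dcomp w n p)

theorem hasFDerivAt_comp (w : ℕ → ℝ) (n : ℕ) (p : ℝ × ℝ) :
    HasFDerivAt (comp w n) (dcomp w n p) p := by
  induction n with
  | zero => exact hasFDerivAt_id p
  | succ n ih => exact (hasFDerivAt_planeMap (w n) (comp w n p)).comp p ih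

theorem fderiv_comp' (w : ℕ → ℝ) (n : ℕ) (p : ℝ × ℝ) : fderiv ℝ (comp w n) p = dcomp w n p :=
  (hasFDerivAt_comp w n p).fderiv

/-- projection of the plane tangent bundle to the tangent bundle of the torus -/
noncomputable def proj (q : (ℝ × ℝ) × (ℝ × ℝ)) : TB :=
  (((q.1.1 : UnitAddCircle), (q.1.2 : UnitAddCircle)), q.2)

theorem TS_proj (a : ℝ) (p V : ℝ × ℝ) :
    TS a (proj (p, V)) = proj (planeMap a p, dmap a p V) := by
  unfold TS proj S planeMap
  rw [dmap_apply]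
  simp only [cs_coe, sn_coe]
  refine Prod.ext (Prod.ext ?_ rfl) rfl
  simp only
  rw [← AddCircle.coe_add, ← AddCircle.coe_sub, ← AddCircle.coe_add]
  congr 1
  ring

theorem orb_proj (w : ℕ → ℝ) (n : ℕ) (p V : ℝ × ℝ) :
    orb w n (proj (p, V)) = proj (comp w n p, dcomp w n p V) := by
  induction n with
  | zero => rfl
  | succ n ih =>
    change TS (w n) (orb w n (proj (p, V))) = _
    rw [ih, TS_proj]
    rfl

/-- unit square -/
def sq (s t : ℝ) : Set (ℝ × ℝ) := Set.Ioc s (s + 1) ×ˢ Set.Ioc t (t + 1)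

theorem mp_sq (s t : ℝ) :
    MeasurePreserving (fun p : ℝ × ℝ => ((p.1 : UnitAddCircle), (p.2 : UnitAddCircle)))
      (volume.restrict (sq s t)) (volume : Measure Tor) := by
  have h1 := UnitAddCircle.measurePreserving_mk s
  have h2 := UnitAddCircle.measurePreserving_mk t
  have h := h1.prod h2
  have e : (volume.restrict (sq s t) : Measure (ℝ × ℝ)) =
      (volume.restrict (Set.Ioc s (s + 1))).prod (volume.restrict (Set.Ioc t (t + 1))) := by
    rw [Measure.prod_restrict, ← Measure.volume_eq_prod]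
    rfl
  rw [e]
  exact h

variable (ν : Measure ℝ) [IsProbabilityMeasure ν]

/-- the map from kicks × plane × vectors to kicks × tangent bundle -/
noncomputable def Th (q : ((ℕ → ℝ) × (ℝ × ℝ)) × (ℝ × ℝ)) : (ℕ → ℝ) × TB :=
  (q.1.1, proj (q.1.2, q.2))

theorem mp_Th (s t : ℝ) :
    MeasurePreserving Th (((law ν).prod (volume.restrict (sq s t))).prod
      (volume : Measure (ℝ × ℝ))) ((law ν).prod (volume : Measure TB)) := by
  have h1 : MeasurePreserving (fun q : (ℝ × ℝ) × (ℝ × ℝ) => proj q)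
      ((volume.restrict (sq s t)).prod (volume : Measure (ℝ × ℝ))) (volume : Measure TB) := by
    have h := (mp_sq s t).prod (MeasurePreserving.id (volume : Measure (ℝ × ℝ)))
    exact h
  have h2 := (MeasurePreserving.id (law ν)).prod h1
  have h3 := measurePreserving_prodAssoc (law ν) (volume.restrict (sq s t))
    (volume : Measure (ℝ × ℝ))
  exact h2.comp h3

/-- large deviations for the derivatives of random compositions -/
theorem large_dev_plane (h1 : ∀ a, ν {a} ≠ 1) (h2 : ν {a | sin (2 * π * a) ≠ 0} ≠ 0) :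
    ∃ c : ℝ, 0 < c ∧ ∀ (s t : ℝ) (n : ℕ),
      ((law ν).prod (volume.restrict (sq s t)))
        {q | ‖fderiv ℝ (comp q.1 n) q.2‖ ≤ exp (c * n)} ≤
        ENNReal.ofReal (2 * exp (-(c * n))) := by
  obtain ⟨c, hc, h⟩ := large_dev ν h1 h2
  refine ⟨c, hc, fun s t n => ?_⟩
  have hn := h n
  obtain ⟨E, hE⟩ : ∃ E : Set ((ℕ → ℝ) × TB),
      E = {q | q.2 ∈ Box 1 ∧ orb q.1 n q.2 ∈ Box (exp (c * n))} := ⟨_, rfl⟩
  rw [← hE] at hn
  have hEm : MeasurableSet E := by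
    rw [hE]
    exact (measurable_snd (meas_Box 1)).inter ((meas_orb n) (meas_Box _))
  obtain ⟨F, hF⟩ : ∃ F : Set ((ℕ → ℝ) × (ℝ × ℝ)),
      F = {q | ‖fderiv ℝ (comp q.1 n) q.2‖ ≤ exp (c * n)} := ⟨_, rfl⟩
  rw [← hF]
  obtain ⟨Q, hQ⟩ : ∃ Q : Set (ℝ × ℝ), Q = Set.Icc (-1) 1 ×ˢ Set.Icc (-1) 1 := ⟨_, rfl⟩
  have hsub : F ×ˢ Q ⊆ Th ⁻¹' E := by
    rintro ⟨⟨w, p⟩, V⟩ ⟨hw, hV⟩
    rw [hF] at hw
    rw [hQ] at hV
    rw [hE]
    simp only [Set.mem_setOf_eq] at hw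
    rw [fderiv_comp'] at hw
    simp only [Set.mem_prod, Set.mem_Icc] at hV
    have hV1 : ‖V‖ ≤ 1 := by
      rw [Prod.norm_def]
      exact max_le (abs_le.2 hV.1) (abs_le.2 hV.2)
    have h3 : ‖dcomp w n p V‖ ≤ exp (c * n) := by
      refine (ContinuousLinearMap.le_opNorm _ _).trans ?_
      calc ‖dcomp w n p‖ * ‖V‖ ≤ exp (c * n) * 1 :=
            mul_le_mul hw hV1 (norm_nonneg _) (exp_pos _).le
        _ = exp (c * n) := mul_one _
    rw [Prod.norm_def] at h3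
    have h4 := max_le_iff.1 h3
    refine ⟨⟨abs_le.2 hV.1, abs_le.2 hV.2⟩, ?_⟩
    change orb w n (proj (p, V)) ∈ Box (exp (c * n))
    rw [orb_proj]
    exact h4
  have hvol : (volume : Measure (ℝ × ℝ)) Q = ENNReal.ofReal 4 := by
    rw [hQ, Measure.volume_eq_prod, Measure.prod_prod, Real.volume_Icc,
      ← ENNReal.ofReal_mul (by norm_num)]
    congr 1; norm_num
  have hle : ((law ν).prod (volume.restrict (sq s t))) F * ENNReal.ofReal 4 ≤
      ENNReal.ofReal (8 * exp (-(c * n))) := by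
    rw [← hvol, ← Measure.prod_prod]
    refine (measure_mono hsub).trans ?_
    rw [(mp_Th ν s t).measure_preimage hEm.nullMeasurableSet]
    exact hn
  have h4 : ENNReal.ofReal 4 ≠ 0 := by simp
  have h5 : ENNReal.ofReal 4 ≠ ⊤ := ENNReal.ofReal_ne_top
  have h6 : ENNReal.ofReal (8 * exp (-(c * n))) =
      ENNReal.ofReal (2 * exp (-(c * n))) * ENNReal.ofReal 4 := by
    rw [← ENNReal.ofReal_mul (by positivity)]
    congr 1; ring
  rw [h6] at hle
  exact (ENNReal.mul_le_mul_iff_left h4 h5).1 hle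

theorem iUnion_sq : (⋃ z : ℤ × ℤ, sq (z.1 : ℝ) (z.2 : ℝ)) = Set.univ := by
  refine Set.eq_univ_of_forall fun p => ?_
  rw [Set.mem_iUnion]
  refine ⟨(⌈p.1⌉ - 1, ⌈p.2⌉ - 1), ?_⟩
  unfold sq
  have h1 := Int.le_ceil p.1
  have h2 := Int.ceil_lt_add_one p.1
  have h3 := Int.le_ceil p.2
  have h4 := Int.ceil_lt_add_one p.2
  refine ⟨⟨?_, ?_⟩, ⟨?_, ?_⟩⟩ <;> push_cast <;> linarith

/-- almost sure exponential growth -/
theorem ae_growth {c : ℝ} (hc : 0 < c)
    (h : ∀ (s t : ℝ) (n : ℕ), ((law ν).prod (volume.restrict (sq s t)))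
        {q | ‖fderiv ℝ (comp q.1 n) q.2‖ ≤ exp (c * n)} ≤
        ENNReal.ofReal (2 * exp (-(c * n)))) :
    ∀ᵐ w ∂(law ν), ∀ᵐ p : ℝ × ℝ, ∀ᶠ n : ℕ in atTop,
      exp (c * n) < ‖fderiv ℝ (comp w n) p‖ := by
  have hsum : ∑' n : ℕ, ENNReal.ofReal (2 * exp (-(c * n))) ≠ ⊤ := by
    have hs : Summable (fun n : ℕ => 2 * exp (-(c * n))) := by
      refine Summable.mul_left 2 ?_
      have e : (fun n : ℕ => exp (-(c * n))) = fun n : ℕ => (exp (-c)) ^ n := by
        funext n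
        rw [← exp_nat_mul]
        congr 1; ring
      rw [e]
      exact summable_geometric_of_lt_one (exp_pos _).le (by
        rw [exp_lt_one_iff]; linarith)
    rw [← ENNReal.ofReal_tsum_of_nonneg (fun n => by positivity) hs]
    exact ENNReal.ofReal_ne_top
  have hsq : ∀ s t : ℝ, ∀ᵐ w ∂(law ν), ∀ᵐ p ∂(volume.restrict (sq s t)), ∀ᶠ n : ℕ in atTop,
      exp (c * n) < ‖fderiv ℝ (comp w n) p‖ := by
    intro s t
    obtain ⟨bad, hbad⟩ : ∃ bad : ℕ → Set ((ℕ → ℝ) × (ℝ × ℝ)),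
      bad = fun n : ℕ => {q | ‖fderiv ℝ (comp q.1 n) q.2‖ ≤ exp (c * n)} := ⟨_, rfl⟩
    have hb : ∀ n, ((law ν).prod (volume.restrict (sq s t))) (bad n) ≤
        ENNReal.ofReal (2 * exp (-(c * n))) := by
      intro n
      rw [hbad]
      exact h s t n
    have hle : ∑' n, ((law ν).prod (volume.restrict (sq s t))) (bad n) ≤
        ∑' n : ℕ, ENNReal.ofReal (2 * exp (-(c * n))) := ENNReal.tsum_le_tsum hb
    have hbc : ∀ᵐ q ∂((law ν).prod (volume.restrict (sq s t))), ∀ᶠ n in atTop, q ∉ bad n :=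
      ae_eventually_notMem (ne_top_of_le_ne_top hsum hle)
    have h2 : ∀ᵐ w ∂(law ν), ∀ᵐ p ∂(volume.restrict (sq s t)), ∀ᶠ n in atTop,
      ((w, p) : (ℕ → ℝ) × (ℝ × ℝ)) ∉ bad n := Measure.ae_ae_of_ae_prod hbc
    filter_upwards [h2] with w hw
    filter_upwards [hw] with p hp
    filter_upwards [hp] with n hn
    rw [hbad] at hn
    exact not_le.1 hn
  have hall : ∀ᵐ w ∂(law ν), ∀ z : ℤ × ℤ, ∀ᵐ p ∂(volume.restrict (sq (z.1 : ℝ) (z.2 : ℝ))),
      ∀ᶠ n : ℕ in atTop, exp (c * n) < ‖fderiv ℝ (comp w n) p‖ :=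
    ae_all_iff.2 fun z => hsq _ _
  filter_upwards [hall] with w hw
  have h3 := (ae_restrict_iUnion_iff (fun z : ℤ × ℤ => sq (z.1 : ℝ) (z.2 : ℝ))
    (fun p => ∀ᶠ n : ℕ in atTop, exp (c * n) < ‖fderiv ℝ (comp w n) p‖)).2 hw
  rw [iUnion_sq, Measure.restrict_univ] at h3
  exact h3

end Q69.SM
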