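import Pool.Agent.Q69.SM.Gap

/-!
Independent kicks: the averages as integrals over sequences of kicks.
-/

set_option autoImplicit false

open MeasureTheory Filter Real

namespace Q69.SM

/-- put `a` in front of the sequence `w` -/
def cons (q : ℝ × (ℕ → ℝ)) : ℕ → ℝ
  | 0 => q.1
  | n + 1 => q.2 n

theorem meas_cons : Measurable cons := by
  rw [measurable_pi_iff]
  intro n
  cases n with
  | zero => exact measurable_fst
  | succ n => exact (measurable_pi_apply n).comp measurable_snd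

variable (ν : Measure ℝ) [IsProbabilityMeasure ν]

/-- the law of an independent sequence of kicks -/
noncomputable abbrev law : Measure (ℕ → ℝ) := Measure.infinitePi (fun _ : ℕ => ν)

theorem mp_cons : MeasurePreserving cons (ν.prod (law ν)) (law ν) := by
  refine ⟨meas_cons, ?_⟩
  refine Measure.eq_infinitePi (fun _ : ℕ => ν) ?_
  intro s t ht
  classical
  obtain ⟨t', ht'⟩ : ∃ t' : ℕ → Set ℝ, t' = fun i => if i ∈ s then t i else Set.univ := ⟨_, rfl⟩
  have htm : ∀ i, MeasurableSet (t' i) := by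
    intro i
    rw [ht']
    simp only
    split_ifs
    · exact ht i
    · exact MeasurableSet.univ
  obtain ⟨M, hM⟩ : ∃ M : ℕ, s ⊆ Finset.range (M + 1) := by
    refine ⟨s.sup id, fun i hi => ?_⟩
    rw [Finset.mem_range]
    exact Nat.lt_succ_of_le (Finset.le_sup (f := id) hi)
  have e1 : Set.pi (↑s) t = Set.pi (↑(Finset.range (M + 1))) t' := by
    ext w
    simp only [Set.mem_pi, Finset.mem_coe]
    constructor
    · intro h i _
      rw [ht']
      simp only
      split_ifs with hi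
      · exact h i hi
      · trivial
    · intro h i hi
      have := h i (hM hi)
      rw [ht'] at this
      simp only [if_pos hi] at this
      exact this
  have e2 : ∏ i ∈ s, ν (t i) = ∏ i ∈ Finset.range (M + 1), ν (t' i) := by
    rw [← Finset.prod_subset hM]
    · refine Finset.prod_congr rfl fun i hi => ?_
      rw [ht']
      simp only [if_pos hi]
    · intro i _ hi
      rw [ht']
      simp only [if_neg hi, measure_univ]
  have e3 : cons ⁻¹' (Set.pi (↑(Finset.range (M + 1))) t') =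
      (t' 0) ×ˢ (Set.pi (↑(Finset.range M)) (fun k => t' (k + 1))) := by
    ext ⟨a, w⟩
    simp only [Set.mem_preimage, Set.mem_pi, Finset.mem_coe, Finset.mem_range, Set.mem_prod]
    constructor
    · intro h
      exact ⟨h 0 (Nat.succ_pos M), fun k hk => h (k + 1) (Nat.succ_lt_succ hk)⟩
    · rintro ⟨h1, h2⟩ i hi
      cases i with
      | zero => exact h1
      | succ k => exact h2 k (Nat.lt_of_succ_lt_succ hi)
  rw [e1, e2, Measure.map_apply meas_cons
    (MeasurableSet.pi (Finset.countable_toSet _) (fun i _ => htm i)), e3, Measure.prod_prod,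
    Measure.infinitePi_pi _ (fun i _ => htm (i + 1)), Finset.prod_range_succ']
  rw [mul_comm]

/-- the orbit on the tangent bundle -/
noncomputable def orb (w : ℕ → ℝ) : ℕ → TB → TB
  | 0 => fun z => z
  | n + 1 => fun z => TS (w n) (orb w n z)

theorem orb_cons (a : ℝ) (w : ℕ → ℝ) (n : ℕ) (z : TB) :
    orb (cons (a, w)) (n + 1) z = orb w n (TS a z) := by
  induction n with
  | zero => rfl
  | succ n ih =>
    change TS (cons (a, w) (n + 1)) (orb (cons (a, w)) (n + 1) z) = TS (w n) (orb w n (TS a z))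
    rw [ih]
    rfl

theorem meas_orb (n : ℕ) : Measurable (fun q : (ℕ → ℝ) × TB => orb q.1 n q.2) := by
  induction n with
  | zero => exact measurable_snd
  | succ n ih =>
    have h1 : Measurable (fun q : (ℕ → ℝ) × TB => (q.1 n, orb q.1 n q.2)) :=
      ((measurable_pi_apply n).comp measurable_fst).prodMk ih
    exact measurable_TS.comp h1

theorem avg_iter (φ : TB → ℝ) (hφ : Measurable φ) (hb : ∀ z, |φ z| ≤ 1) (n : ℕ) (z : TB) :
    (avg ν TS)^[n] φ z = ∫ w, φ (orb w n z) ∂(law ν) := by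
  induction n generalizing z with
  | zero =>
    simp [orb]
  | succ n ih =>
    rw [Function.iterate_succ_apply']
    change ∫ a, (avg ν TS)^[n] φ (TS a z) ∂ν = _
    have h1 : ∀ a, (avg ν TS)^[n] φ (TS a z) = ∫ w, φ (orb w n (TS a z)) ∂(law ν) :=
      fun a => ih (TS a z)
    simp only [h1]
    have hm : Measurable (fun q : ℝ × (ℕ → ℝ) => φ (orb q.2 n (TS q.1 z))) := by
      refine hφ.comp ((meas_orb n).comp (measurable_snd.prodMk ?_))
      exact measurable_TS.comp (measurable_fst.prodMk measurable_const)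
    have hi : Integrable (fun q : ℝ × (ℕ → ℝ) => φ (orb q.2 n (TS q.1 z))) (ν.prod (law ν)) :=
      (integrable_const (1:ℝ)).mono' hm.aestronglyMeasurable
        (Eventually.of_forall fun q => hb _)
    rw [← integral_prod _ hi]
    have hm2 : Measurable (fun w : ℕ → ℝ => φ (orb w (n + 1) z)) :=
      hφ.comp ((meas_orb (n + 1)).comp (measurable_id.prodMk measurable_const))
    conv_rhs => rw [← (mp_cons ν).map_eq]
    rw [integral_map meas_cons.aemeasurable hm2.aestronglyMeasurable]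
    refine integral_congr_ae (Eventually.of_forall fun q => ?_)
    obtain ⟨a, w⟩ := q
    simp only
    rw [orb_cons]

/-- vectors of norm at most `ρ` -/
def Box (ρ : ℝ) : Set TB := {z | |z.2.1| ≤ ρ ∧ |z.2.2| ≤ ρ}

theorem meas_Box (ρ : ℝ) : MeasurableSet (Box ρ) :=
  (measurableSet_le (f := fun z : TB => |z.2.1|) (g := fun _ => ρ)
    (Measurable.abs (by fun_prop)) measurable_const).inter
  (measurableSet_le (f := fun z : TB => |z.2.2|) (g := fun _ => ρ)
    (Measurable.abs (by fun_prop)) measurable_const)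

theorem vol_Box {ρ : ℝ} (hρ : 0 ≤ ρ) :
    (volume : Measure TB) (Box ρ) = ENNReal.ofReal (4 * ρ ^ 2) := by
  have e : Box ρ = (Set.univ : Set Tor) ×ˢ ((Set.Icc (-ρ) ρ) ×ˢ (Set.Icc (-ρ) ρ)) := by
    ext z
    simp only [Box, Set.mem_setOf_eq, abs_le, Set.mem_prod, Set.mem_univ, true_and, Set.mem_Icc]
  have h1 : (volume : Measure (ℝ × ℝ)) ((Set.Icc (-ρ) ρ) ×ˢ (Set.Icc (-ρ) ρ)) =
      ENNReal.ofReal (4 * ρ ^ 2) := by
    rw [Measure.volume_eq_prod, Measure.prod_prod, Real.volume_Icc,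
      ← ENNReal.ofReal_mul (by linarith)]
    congr 1; ring
  have h2 : (volume : Measure Tor) Set.univ = 1 := by
    rw [Measure.volume_eq_prod, ← Set.univ_prod_univ, Measure.prod_prod]
    simp
  rw [e]
  change ((volume : Measure Tor).prod (volume : Measure (ℝ × ℝ))) _ = _
  rw [Measure.prod_prod, h1, h2, one_mul]

/-- indicator of a box -/
noncomputable def ind (ρ : ℝ) : TB → ℝ := (Box ρ).indicator (fun _ => 1)

theorem ind_sq (ρ : ℝ) (z : TB) : ind ρ z ^ 2 = ind ρ z := by
  unfold ind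
  by_cases h : z ∈ Box ρ <;> simp [h]

theorem L2_ind {ρ : ℝ} (hρ : 0 ≤ ρ) : L2 volume (ind ρ) := by
  refine ⟨measurable_const.indicator (meas_Box ρ), ?_⟩
  simp only [ind_sq]
  unfold ind
  rw [integrable_indicator_iff (meas_Box ρ)]
  exact integrableOn_const (by rw [vol_Box hρ]; exact ENNReal.ofReal_ne_top)

theorem int_ind {ρ : ℝ} (hρ : 0 ≤ ρ) : ∫ z, ind ρ z ^ 2 = 4 * ρ ^ 2 := by
  simp only [ind_sq]
  unfold ind
  rw [integral_indicator (meas_Box ρ), integral_const]
  simp only [smul_eq_mul, mul_one]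
  rw [Measure.real, Measure.restrict_apply_univ, vol_Box hρ, ENNReal.toReal_ofReal (by positivity)]

/-- large deviations on the tangent bundle -/
theorem large_dev (h1 : ∀ a, ν {a} ≠ 1) (h2 : ν {a | sin (2 * π * a) ≠ 0} ≠ 0) :
    ∃ c : ℝ, 0 < c ∧ ∀ n : ℕ,
      ((law ν).prod (volume : Measure TB)) {q | q.2 ∈ Box 1 ∧ orb q.1 n q.2 ∈ Box (exp (c * n))} ≤
        ENNReal.ofReal (8 * exp (-(c * n))) := by
  obtain ⟨N, η, hη, hη1, hgap⟩ := gap ν h1 h2
  obtain ⟨c0, hc0⟩ : ∃ c0 : ℝ, c0 = η / (N + 1) := ⟨_, rfl⟩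
  have hc0p : 0 < c0 := by rw [hc0]; positivity
  refine ⟨c0 / 4, by positivity, fun n => ?_⟩
  obtain ⟨ρ, hρ⟩ : ∃ ρ, ρ = exp (c0 / 4 * n) := ⟨_, rfl⟩
  have hρ0 : 0 ≤ ρ := by rw [hρ]; exact (exp_pos _).le
  rw [← hρ]
  have hdec := exp_decay (P := ν) measurable_TS mp_TS hη hη1 hgap (L2_ind hρ0) n
  rw [int_ind hρ0, ← hc0] at hdec
  obtain ⟨g, hg⟩ : ∃ g : TB → ℝ, g = (avg ν TS)^[n] (ind ρ) := ⟨_, rfl⟩
  have hgL : L2 volume g := by rw [hg]; exact iter_L2 measurable_TS mp_TS (L2_ind hρ0) n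
  rw [← hg] at hdec
  obtain ⟨E, hE⟩ : ∃ E : Set ((ℕ → ℝ) × TB), E = {q | q.2 ∈ Box 1 ∧ orb q.1 n q.2 ∈ Box ρ} :=
    ⟨_, rfl⟩
  rw [← hE]
  have hEm : MeasurableSet E := by
    rw [hE]
    exact (measurable_snd (meas_Box 1)).inter ((meas_orb n) (meas_Box ρ))
  -- the measure of the sections
  have hg1 : ∀ z, g z = (law ν).real {w | orb w n z ∈ Box ρ} := by
    intro z
    rw [hg, avg_iter ν (ind ρ) (L2_ind hρ0).1 (fun z => by
      unfold ind
      by_cases h : z ∈ Box ρ <;> simp [h])]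
    have hm : MeasurableSet {w : ℕ → ℝ | orb w n z ∈ Box ρ} :=
      ((meas_orb n).comp (measurable_id.prodMk measurable_const)) (meas_Box ρ)
    have e : (fun w => ind ρ (orb w n z)) =
        ({w : ℕ → ℝ | orb w n z ∈ Box ρ}).indicator (fun _ => (1:ℝ)) := by
      funext w
      unfold ind
      by_cases h : orb w n z ∈ Box ρ
      · simp [h]
      · simp [h]
    rw [e, integral_indicator hm, integral_const]
    simp
  have hsec : ∀ z, (law ν) ((fun w => (w, z)) ⁻¹' E) = ENNReal.ofReal (ind 1 z * g z) := by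
    intro z
    by_cases hz : z ∈ Box 1
    · have e : ((fun w => (w, z)) ⁻¹' E) = {w | orb w n z ∈ Box ρ} := by
        rw [hE]; ext w; simp [hz]
      have e2 : ind 1 z = 1 := by unfold ind; simp [hz]
      rw [e, e2, one_mul, hg1, ofReal_measureReal (measure_ne_top _ _)]
    · have e : ((fun w => (w, z)) ⁻¹' E) = ∅ := by
        rw [hE]; ext w; simp [hz]
      have e2 : ind 1 z = 0 := by unfold ind; simp [hz]
      rw [e, e2, zero_mul]
      simp
  rw [Measure.prod_apply_symm hEm]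
  simp only [hsec]
  have hi1 := (L2_ind (ρ := 1) zero_le_one).2
  have hprod : Integrable (fun z => ind 1 z * g z) volume := by
    refine (hi1.add hgL.2).mono' ((L2_ind zero_le_one).1.mul hgL.1).aestronglyMeasurable
      (Eventually.of_forall fun z => ?_)
    simp only [Pi.add_apply, norm_eq_abs, abs_mul]
    nlinarith [sq_nonneg (|ind 1 z| - |g z|), sq_abs (ind 1 z), sq_abs (g z),
      sq_nonneg (ind 1 z), sq_nonneg (g z)]
  have hnn : ∀ z, 0 ≤ ind 1 z * g z := by
    intro z
    refine mul_nonneg ?_ ?_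
    · unfold ind
      by_cases h : z ∈ Box 1 <;> simp [h]
    · rw [hg1]; exact measureReal_nonneg
  rw [← ofReal_integral_eq_lintegral_ofReal hprod (Eventually.of_forall hnn)]
  apply ENNReal.ofReal_le_ofReal
  obtain ⟨s, hs⟩ : ∃ s, s = exp (-(c0 / 4 * n)) := ⟨_, rfl⟩
  have hs0 : 0 < s := by rw [hs]; exact exp_pos _
  have hle : ∫ z, ind 1 z * g z ≤ (s / 2) * (∫ z, ind 1 z ^ 2) + (1 / (2 * s)) * ∫ z, g z ^ 2 := by
    rw [← integral_const_mul, ← integral_const_mul, ← integral_add (hi1.const_mul _)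
      (hgL.2.const_mul _)]
    refine integral_mono hprod ((hi1.const_mul _).add (hgL.2.const_mul _)) fun z => ?_
    simp only
    have h0 : 0 ≤ (s * ind 1 z - g z) ^ 2 / (2 * s) := by positivity
    have e : (s * ind 1 z - g z) ^ 2 / (2 * s) =
        s / 2 * ind 1 z ^ 2 + 1 / (2 * s) * g z ^ 2 - ind 1 z * g z := by
      field_simp
      ring
    linarith
  rw [int_ind zero_le_one] at hle
  have hρs : ρ ^ 2 * exp (-c0 * n) = s ^ 2 := by
    rw [hρ, hs, ← Real.exp_nat_mul, ← Real.exp_nat_mul, ← Real.exp_add]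
    congr 1
    push_cast; ring
  have h3 : ∫ z, g z ^ 2 ≤ exp 1 * 4 * s ^ 2 := by
    rw [← hρs]
    calc _ ≤ _ := hdec
      _ = _ := by ring
  have h4 : (1 / (2 * s)) * ∫ z, g z ^ 2 ≤ (1 / (2 * s)) * (exp 1 * 4 * s ^ 2) :=
    mul_le_mul_of_nonneg_left h3 (by positivity)
  have h5 : (1 / (2 * s)) * (exp 1 * 4 * s ^ 2) = 2 * exp 1 * s := by
    field_simp; norm_num
  have h6 := Real.exp_one_lt_d9
  rw [← hs]
  nlinarith

end Q69.SM
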