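import Mathlib

/-!
The standard map on the tangent bundle of the torus.
-/

set_option autoImplicit false

open MeasureTheory Filter Real

namespace Q69.SM

/-- cosine of `2π x` on the circle `ℝ/ℤ` -/
noncomputable def cs (x : UnitAddCircle) : ℝ := (AddCircle.toCircle x : ℂ).re

/-- sine of `2π x` on the circle `ℝ/ℤ` -/
noncomputable def sn (x : UnitAddCircle) : ℝ := (AddCircle.toCircle x : ℂ).im

theorem cs_coe (x : ℝ) : cs (x : UnitAddCircle) = cos (2 * π * x) := by
  unfold cs
  rw [AddCircle.toCircle_apply_mk, Circle.coe_exp, Complex.exp_ofReal_mul_I_re]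
  congr 1; ring

theorem sn_coe (x : ℝ) : sn (x : UnitAddCircle) = sin (2 * π * x) := by
  unfold sn
  rw [AddCircle.toCircle_apply_mk, Circle.coe_exp, Complex.exp_ofReal_mul_I_im]
  congr 1; ring

theorem exists_coe (x : UnitAddCircle) : ∃ r : ℝ, (r : UnitAddCircle) = x :=
  QuotientAddGroup.mk_surjective x

theorem cs_sq_add (x : UnitAddCircle) : cs x ^ 2 + sn x ^ 2 = 1 := by
  obtain ⟨r, rfl⟩ := exists_coe x
  rw [cs_coe, sn_coe]
  exact cos_sq_add_sin_sq _

theorem cs_add (x y : UnitAddCircle) : cs (x + y) = cs x * cs y - sn x * sn y := by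
  obtain ⟨r, rfl⟩ := exists_coe x
  obtain ⟨s, rfl⟩ := exists_coe y
  rw [← AddCircle.coe_add, cs_coe, cs_coe, sn_coe, cs_coe, sn_coe, mul_add, cos_add]

theorem sn_add (x y : UnitAddCircle) : sn (x + y) = sn x * cs y + cs x * sn y := by
  obtain ⟨r, rfl⟩ := exists_coe x
  obtain ⟨s, rfl⟩ := exists_coe y
  rw [← AddCircle.coe_add, sn_coe, cs_coe, sn_coe, cs_coe, sn_coe, mul_add, sin_add]

theorem cs_neg (x : UnitAddCircle) : cs (-x) = cs x := by
  obtain ⟨r, rfl⟩ := exists_coe x
  rw [← AddCircle.coe_neg, cs_coe, cs_coe, mul_neg, cos_neg]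

theorem sn_neg (x : UnitAddCircle) : sn (-x) = - sn x := by
  obtain ⟨r, rfl⟩ := exists_coe x
  rw [← AddCircle.coe_neg, sn_coe, sn_coe, mul_neg, sin_neg]

theorem abs_cs_le (x : UnitAddCircle) : |cs x| ≤ 1 := by
  obtain ⟨r, rfl⟩ := exists_coe x
  rw [cs_coe]; exact abs_cos_le_one _

theorem abs_sn_le (x : UnitAddCircle) : |sn x| ≤ 1 := by
  obtain ⟨r, rfl⟩ := exists_coe x
  rw [sn_coe]; exact abs_sin_le_one _

theorem continuous_toC : Continuous (fun x : UnitAddCircle => (AddCircle.toCircle x : ℂ)) :=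
  continuous_subtype_val.comp AddCircle.continuous_toCircle

theorem continuous_cs : Continuous cs := Complex.continuous_re.comp continuous_toC

theorem continuous_sn : Continuous sn := Complex.continuous_im.comp continuous_toC

theorem continuous_coe : Continuous (fun r : ℝ => (r : UnitAddCircle)) :=
  AddCircle.continuous_mk' 1

/-- the torus -/
abbrev Tor := UnitAddCircle × UnitAddCircle

/-- the tangent bundle -/
abbrev TB := Tor × (ℝ × ℝ)

/-- the standard map on the torus -/
noncomputable def S (a : ℝ) (p : Tor) : Tor :=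
  (p.1 + p.1 - p.2 + ((a * sn p.1 : ℝ) : UnitAddCircle), p.1)

/-- the standard map on the tangent bundle -/
noncomputable def TS (a : ℝ) (z : TB) : TB :=
  (S a z.1, ((2 + 2 * π * a * cs z.1.1) * z.2.1 - z.2.2, z.2.1))

/-- the inverse of `TS a` -/
noncomputable def TSi (a : ℝ) (z : TB) : TB :=
  ((z.1.2, z.1.2 + z.1.2 - z.1.1 + ((a * sn z.1.2 : ℝ) : UnitAddCircle)),
    (z.2.2, (2 + 2 * π * a * cs z.1.2) * z.2.2 - z.2.1))

/-- vertical shear -/
noncomputable def W (s : ℝ) (z : TB) : TB :=
  ((z.1.1, z.1.2 - ((s * sn z.1.1 : ℝ) : UnitAddCircle)),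
    (z.2.1, z.2.2 - 2 * π * s * cs z.1.1 * z.2.1))

theorem TSi_TS (a : ℝ) (z : TB) : TSi a (TS a z) = z := by
  obtain ⟨⟨x, y⟩, u, v⟩ := z
  simp only [TSi, TS, S]
  refine Prod.ext (Prod.ext rfl ?_) (Prod.ext rfl ?_)
  · simp only; abel
  · simp only; ring

theorem TSi_TS' (a b : ℝ) (z : TB) : TSi a (TS b z) = W (b - a) z := by
  obtain ⟨⟨x, y⟩, u, v⟩ := z
  simp only [TSi, TS, S, W]
  refine Prod.ext (Prod.ext rfl ?_) (Prod.ext rfl ?_)
  · simp only
    rw [sub_mul, AddCircle.coe_sub]
    abel
  · simp only; ring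

theorem W_W (s t : ℝ) (z : TB) : W s (W t z) = W (s + t) z := by
  obtain ⟨⟨x, y⟩, u, v⟩ := z
  simp only [W]
  refine Prod.ext (Prod.ext rfl ?_) (Prod.ext rfl ?_)
  · simp only
    rw [add_mul, AddCircle.coe_add]
    abel
  · simp only; ring

theorem W_zero (z : TB) : W 0 z = z := by
  obtain ⟨⟨x, y⟩, u, v⟩ := z
  simp [W]

theorem continuous_S : Continuous (fun q : ℝ × Tor => S q.1 q.2) := by
  unfold S
  have h := continuous_coe.comp ((continuous_fst (X := ℝ) (Y := Tor)).mul
    (continuous_sn.comp (continuous_fst.comp (continuous_snd (X := ℝ) (Y := Tor)))))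
  have h' : Continuous (fun q : ℝ × Tor => ((q.1 * sn q.2.1 : ℝ) : UnitAddCircle)) := h
  fun_prop

theorem continuous_TS : Continuous (fun q : ℝ × TB => TS q.1 q.2) := by
  unfold TS
  have h := continuous_S.comp ((continuous_fst (X := ℝ) (Y := TB)).prodMk
    (continuous_fst.comp (continuous_snd (X := ℝ) (Y := TB))))
  have h' : Continuous (fun q : ℝ × TB => S q.1 q.2.1) := h
  have h2 : Continuous (fun q : ℝ × TB => cs q.2.1.1) := continuous_cs.comp (by fun_prop)
  fun_prop

theorem measurable_TS : Measurable (Function.uncurry TS) := continuous_TS.measurable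

theorem continuous_TSi (a : ℝ) : Continuous (TSi a) := by
  unfold TSi
  have h1 : Continuous (fun z : TB => ((a * sn z.1.2 : ℝ) : UnitAddCircle)) :=
    continuous_coe.comp (continuous_const.mul (continuous_sn.comp (by fun_prop)))
  have h2 : Continuous (fun z : TB => cs z.1.2) := continuous_cs.comp (by fun_prop)
  fun_prop

theorem continuous_W (s : ℝ) : Continuous (W s) := by
  unfold W
  have h1 : Continuous (fun z : TB => ((s * sn z.1.1 : ℝ) : UnitAddCircle)) :=
    continuous_coe.comp (continuous_const.mul (continuous_sn.comp (by fun_prop)))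
  have h2 : Continuous (fun z : TB => cs z.1.1) := continuous_cs.comp (by fun_prop)
  fun_prop

theorem mp_S (a : ℝ) : MeasurePreserving (S a) volume volume := by
  have h0 : Continuous (fun q : Tor => q.1 + q.1 - q.2 + ((a * sn q.1 : ℝ) : UnitAddCircle)) := by
    have h1 : Continuous (fun z : Tor => ((a * sn z.1 : ℝ) : UnitAddCircle)) :=
      continuous_coe.comp (continuous_const.mul (continuous_sn.comp (by fun_prop)))
    fun_prop
  have h1 : MeasurePreserving (fun q : Tor => (q.1, q.1 + q.1 - q.2 +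
      ((a * sn q.1 : ℝ) : UnitAddCircle))) volume volume := by
    rw [Measure.volume_eq_prod]
    refine (MeasurePreserving.id volume).skew_product
      (g := fun (x : UnitAddCircle) (y : UnitAddCircle) =>
        x + x - y + ((a * sn x : ℝ) : UnitAddCircle)) h0.measurable
      (Eventually.of_forall fun x => ?_)
    have h2 := (Measure.measurePreserving_sub_left (volume : Measure UnitAddCircle)
      (x + x + ((a * sn x : ℝ) : UnitAddCircle))).map_eq
    have h3 : (fun y : UnitAddCircle => x + x - y + ((a * sn x : ℝ) : UnitAddCircle)) =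
      fun y => (x + x + ((a * sn x : ℝ) : UnitAddCircle)) - y := by
      funext y; abel
    rw [h3]
    exact h2
  have h2 : MeasurePreserving (Prod.swap : Tor → Tor) volume volume :=
    Measure.measurePreserving_swap
  have h3 := h2.comp h1
  exact h3

theorem mp_lin (c : ℝ) : MeasurePreserving (fun V : ℝ × ℝ => (c * V.1 - V.2, V.1))
    volume volume := by
  have h1 : MeasurePreserving (fun q : ℝ × ℝ => (q.1, c * q.1 - q.2)) volume volume := by
    rw [Measure.volume_eq_prod]
    refine (MeasurePreserving.id volume).skew_product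
      (g := fun (x : ℝ) (y : ℝ) => c * x - y) (by fun_prop)
      (Eventually.of_forall fun x => ?_)
    exact (Measure.measurePreserving_sub_left (volume : Measure ℝ) (c * x)).map_eq
  have h2 : MeasurePreserving (Prod.swap : ℝ × ℝ → ℝ × ℝ) volume volume :=
    Measure.measurePreserving_swap
  exact h2.comp h1

theorem mp_TS (a : ℝ) : MeasurePreserving (TS a) volume volume := by
  have h0 : Measurable (TS a) := measurable_TS.comp (measurable_const.prodMk measurable_id)
  rw [Measure.volume_eq_prod]
  refine (mp_S a).skew_product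
    (g := fun (p : Tor) (V : ℝ × ℝ) => ((2 + 2 * π * a * cs p.1) * V.1 - V.2, V.1)) ?_
    (Eventually.of_forall fun p => (mp_lin _).map_eq)
  exact measurable_snd.comp h0

end Q69.SM
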